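import Mathlib

/-!
# Parity words of the 3x+1 map: the number of atypical words
-/

namespace Pool.Agent.helper49.Pow

open Finset

/-- The `3x+1` map on the natural numbers, with `T 1 = 2`. -/
def T (n : ℕ) : ℕ := if n % 2 = 1 then (3 * n + 1) / 2 else n / 2

/-- The parity word of length `k`. -/
def word : ℕ → ℕ → List Bool
  | 0, _ => []
  | k + 1, n => (if n % 2 = 1 then true else false) :: word k (T n)

/-- The number of odd terms among the first `k`. -/
def od : ℕ → ℕ → ℕ
  | 0, _ => 0
  | k + 1, n => n % 2 + od k (T n)

/-- The number of `l < k` with `T^l n` odd and `T^(l+1) n` even. -/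
def tr : ℕ → ℕ → ℕ
  | 0, _ => 0
  | k + 1, n => (if n % 2 = 1 ∧ T n % 2 = 0 then 1 else 0) + tr k (T n)

/-- The number of descents `true, false` in a word. -/
def trw : List Bool → ℕ
  | [] => 0
  | [_] => 0
  | a :: b :: l => (if a = true ∧ b = false then 1 else 0) + trw (b :: l)

/-- The sum of `F` over all words of length `k`. -/
def Sm : ℕ → (List Bool → ℝ) → ℝ
  | 0, F => F []
  | k + 1, F => Sm k (fun w => F (true :: w)) + Sm k (fun w => F (false :: w))

theorem two_T_even {n : ℕ} (h : n % 2 = 0) : 2 * T n = n := by
  unfold T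
  rw [if_neg (by omega)]
  omega

theorem two_T_odd {n : ℕ} (h : n % 2 = 1) : 2 * T n = 3 * n + 1 := by
  unfold T
  rw [if_pos h]
  omega

theorem Sm_mono (k : ℕ) {F G : List Bool → ℝ} (h : ∀ w, F w ≤ G w) : Sm k F ≤ Sm k G := by
  induction k generalizing F G with
  | zero => exact h _
  | succ k ih => exact add_le_add (ih fun w => h _) (ih fun w => h _)

theorem Sm_mul (k : ℕ) (c : ℝ) (F : List Bool → ℝ) : Sm k (fun w => c * F w) = c * Sm k F := by
  induction k generalizing F with
  | zero => rfl
  | succ k ih =>
    show Sm k (fun w => c * F (true :: w)) + Sm k (fun w => c * F (false :: w)) = _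
    rw [ih (fun w => F (true :: w)), ih (fun w => F (false :: w))]
    show _ = c * (_ + _)
    ring

/-- Sums over a set of integers which are distinct modulo `2 ^ k`. -/
theorem sum_le (k : ℕ) : ∀ (F : List Bool → ℝ) (_ : ∀ w, 0 ≤ F w) (S : Finset ℕ)
    (_ : ∀ n ∈ S, ∀ m ∈ S, n ≡ m [MOD 2 ^ k] → n = m), ∑ n ∈ S, F (word k n) ≤ Sm k F := by
  induction k with
  | zero =>
    intro F hF S hS
    have h1 : S.card ≤ 1 := by
      rw [card_le_one]
      intro a ha b hb
      exact hS a ha b hb (by rw [pow_zero]; exact Nat.modEq_one)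
    have h2 : ∑ n ∈ S, F (word 0 n) = S.card * F [] := by
      simp [word, sum_const, nsmul_eq_mul]
    rw [h2]
    have h3 : (S.card : ℝ) ≤ 1 := by exact_mod_cast h1
    show _ ≤ F []
    nlinarith [hF []]
  | succ k ih =>
    intro F hF S hS
    classical
    have h1 : ∑ n ∈ S, F (word (k + 1) n) =
        ∑ n ∈ S.filter (fun n => n % 2 = 1), F (true :: word k (T n)) +
        ∑ n ∈ S.filter (fun n => ¬ n % 2 = 1), F (false :: word k (T n)) := by
      rw [← sum_filter_add_sum_filter_not S (fun n => n % 2 = 1)]
      congr 1
      · refine sum_congr rfl fun n hn => ?_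
        have := (mem_filter.1 hn).2
        show F ((if n % 2 = 1 then true else false) :: word k (T n)) = _
        rw [if_pos this]
      · refine sum_congr rfl fun n hn => ?_
        have := (mem_filter.1 hn).2
        show F ((if n % 2 = 1 then true else false) :: word k (T n)) = _
        rw [if_neg this]
    rw [h1]
    have inj1 : ∀ n ∈ S.filter (fun n => n % 2 = 1), ∀ m ∈ S.filter (fun n => n % 2 = 1),
        T n ≡ T m [MOD 2 ^ k] → n = m := by
      intro n hn m hm h
      rw [mem_filter] at hn hm
      refine hS n hn.1 m hm.1 ?_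
      have e1 := two_T_odd hn.2
      have e2 := two_T_odd hm.2
      have h2 : 2 * T n ≡ 2 * T m [MOD 2 ^ (k + 1)] := by
        rw [pow_succ']
        exact Nat.ModEq.mul_left' 2 h
      rw [e1, e2] at h2
      have h3 : 3 * n ≡ 3 * m [MOD 2 ^ (k + 1)] := Nat.ModEq.add_right_cancel' 1 h2
      exact Nat.ModEq.cancel_left_of_coprime (by
        rw [Nat.gcd_comm]
        exact Nat.Coprime.pow_right (k + 1) (by norm_num)) h3
    have inj2 : ∀ n ∈ S.filter (fun n => ¬ n % 2 = 1), ∀ m ∈ S.filter (fun n => ¬ n % 2 = 1),
        T n ≡ T m [MOD 2 ^ k] → n = m := by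
      intro n hn m hm h
      rw [mem_filter] at hn hm
      refine hS n hn.1 m hm.1 ?_
      have e1 := two_T_even (n := n) (by omega)
      have e2 := two_T_even (n := m) (by omega)
      have h2 : 2 * T n ≡ 2 * T m [MOD 2 ^ (k + 1)] := by
        rw [pow_succ']
        exact Nat.ModEq.mul_left' 2 h
      rwa [e1, e2] at h2
    refine add_le_add ?_ ?_
    · have h2 : ∑ n ∈ S.filter (fun n => n % 2 = 1), F (true :: word k (T n)) =
          ∑ m ∈ (S.filter (fun n => n % 2 = 1)).image T, F (true :: word k m) := by
        rw [sum_image]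
        intro n hn m hm h
        exact inj1 n hn m hm (by rw [h])
      rw [h2]
      refine ih (fun w => F (true :: w)) (fun w => hF _) _ ?_
      intro a ha b hb hab
      obtain ⟨n, hn, rfl⟩ := mem_image.1 ha
      obtain ⟨m, hm, rfl⟩ := mem_image.1 hb
      rw [inj1 n hn m hm hab]
    · have h2 : ∑ n ∈ S.filter (fun n => ¬ n % 2 = 1), F (false :: word k (T n)) =
          ∑ m ∈ (S.filter (fun n => ¬ n % 2 = 1)).image T, F (false :: word k m) := by
        rw [sum_image]
        intro n hn m hm h
        exact inj2 n hn m hm (by rw [h])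
      rw [h2]
      refine ih (fun w => F (false :: w)) (fun w => hF _) _ ?_
      intro a ha b hb hab
      obtain ⟨n, hn, rfl⟩ := mem_image.1 ha
      obtain ⟨m, hm, rfl⟩ := mem_image.1 hb
      rw [inj2 n hn m hm hab]

theorem trw_false (w : List Bool) : trw (false :: w) = trw w := by
  cases w with
  | nil => rfl
  | cons b l =>
    show (if false = true ∧ b = false then 1 else 0) + trw (b :: l) = _
    simp

theorem trw_true_true (w : List Bool) : trw (true :: true :: w) = trw (true :: w) := by
  show (if true = true ∧ true = false then 1 else 0) + trw (true :: w) = _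
  simp

theorem trw_true_false (w : List Bool) : trw (true :: false :: w) = trw (false :: w) + 1 := by
  show (if true = true ∧ false = false then 1 else 0) + trw (false :: w) = _
  simp [add_comm]

theorem Sm_trw (k : ℕ) {s : ℝ} (hs : 1 ≤ s) :
    Sm k (fun w => (s ^ 2) ^ (trw (false :: w))) ≤ (1 + s) ^ k ∧
    Sm k (fun w => (s ^ 2) ^ (trw (true :: w))) ≤ s * (1 + s) ^ k := by
  induction k with
  | zero =>
    constructor
    · show (s ^ 2) ^ (trw [false]) ≤ _
      simp [trw]
    · show (s ^ 2) ^ (trw [true]) ≤ _
      simpa [trw] using hs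
  | succ k ih =>
    obtain ⟨h1, h2⟩ := ih
    constructor
    · show Sm k (fun w => (s ^ 2) ^ (trw (false :: true :: w))) +
        Sm k (fun w => (s ^ 2) ^ (trw (false :: false :: w))) ≤ _
      simp only [trw_false (true :: _), trw_false (false :: _)]
      calc _ ≤ s * (1 + s) ^ k + (1 + s) ^ k := add_le_add h2 h1
        _ = (1 + s) ^ (k + 1) := by ring
    · show Sm k (fun w => (s ^ 2) ^ (trw (true :: true :: w))) +
        Sm k (fun w => (s ^ 2) ^ (trw (true :: false :: w))) ≤ _
      have h5 : (fun w => (s ^ 2) ^ (trw (true :: false :: w))) =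
          fun w => s ^ 2 * (s ^ 2) ^ (trw (false :: w)) := by
        funext w
        rw [trw_true_false, pow_succ']
      have h6 : (fun w => (s ^ 2) ^ (trw (true :: true :: w))) =
          fun w => (s ^ 2) ^ (trw (true :: w)) := by
        funext w
        rw [trw_true_true]
      rw [h5, h6, Sm_mul]
      have h4 : s ^ 2 * Sm k (fun w => (s ^ 2) ^ (trw (false :: w))) ≤ s ^ 2 * (1 + s) ^ k :=
        mul_le_mul_of_nonneg_left h1 (by positivity)
      calc _ ≤ s * (1 + s) ^ k + s ^ 2 * (1 + s) ^ k := add_le_add h2 h4
        _ = s * (1 + s) ^ (k + 1) := by ring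

theorem Sm_count (k : ℕ) (u : ℝ) : Sm k (fun w => u ^ (w.count true)) = (1 + u) ^ k := by
  induction k with
  | zero => simp [Sm]
  | succ k ih =>
    show Sm k (fun w => u ^ ((true :: w).count true)) + Sm k (fun w => u ^ ((false :: w).count true)) = _
    have h1 : (fun w : List Bool => u ^ ((true :: w).count true)) = fun w => u * u ^ (w.count true) := by
      funext w
      rw [List.count_cons_self, pow_succ']
    have h2 : (fun w : List Bool => u ^ ((false :: w).count true)) = fun w => u ^ (w.count true) := by
      funext w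
      rw [List.count_cons_of_ne (by decide)]
    rw [h1, h2, Sm_mul, ih]
    ring

theorem od_word (k n : ℕ) : (word k n).count true = od k n := by
  induction k generalizing n with
  | zero => rfl
  | succ k ih =>
    show ((if n % 2 = 1 then true else false) :: word k (T n)).count true = n % 2 + od k (T n)
    rcases Nat.mod_two_eq_zero_or_one n with h | h
    · rw [if_neg (by omega), List.count_cons_of_ne (by decide), ih, h, zero_add]
    · rw [if_pos h, List.count_cons_self, ih, h, add_comm]

/-- `tr` and the descents of the word. -/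
theorem tr_le_trw (k n : ℕ) : tr k n ≤ trw (word k n) + 1 := by
  induction k generalizing n with
  | zero => exact Nat.zero_le _
  | succ k ih =>
    have h := ih (T n)
    cases k with
    | zero =>
      show (if n % 2 = 1 ∧ T n % 2 = 0 then 1 else 0) + 0 ≤ _
      split_ifs <;> omega
    | succ k =>
      show (if n % 2 = 1 ∧ T n % 2 = 0 then 1 else 0) + tr (k + 1) (T n) ≤
        (if (if n % 2 = 1 then true else false) = true ∧
          (if T n % 2 = 1 then true else false) = false then 1 else 0) + trw (word (k + 1) (T n)) + 1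
      have h2 : (if n % 2 = 1 ∧ T n % 2 = 0 then 1 else 0) ≤
          (if (if n % 2 = 1 then true else false) = true ∧
            (if T n % 2 = 1 then true else false) = false then 1 else 0) := by
        by_cases h3 : n % 2 = 1 ∧ T n % 2 = 0
        · rw [if_pos h3, if_pos h3.1, if_neg (by omega : ¬ T n % 2 = 1)]
          simp
        · rw [if_neg h3]
          exact Nat.zero_le _
      omega

end Pool.Agent.helper49.Pow
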