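import Pool.Agent.helper49.Pow.Stage

/-!
# From one scale to the next
-/

namespace Pool.Agent.helper49.Pow

open Finset

/-- `n` comes below `Y` in a typical way. -/
def Gd (b κ : ℝ) (X : ℕ) (Y : ℝ) (n : ℕ) : Prop :=
  ∃ j : ℕ, ((T^[j] n : ℕ) : ℝ) < Y ∧ (∀ i < j, Y ≤ ((T^[i] n : ℕ) : ℝ)) ∧
    (j : ℝ) ≤ b * (Real.log (X + 1) - Real.log Y) ∧
    (tr j n : ℝ) ≤ κ * (b * (Real.log (X + 1) - Real.log Y))

open Classical in
/-- The number of the `n ≤ X` which do not. -/
noncomputable def NN (b κ : ℝ) (X : ℕ) (Y : ℝ) : ℕ :=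
  ((range (X + 1)).filter (fun n => ¬ Gd b κ X Y n)).card

theorem le_two_T (n : ℕ) : n ≤ 2 * T n := by
  rcases Nat.mod_two_eq_zero_or_one n with h | h
  · rw [two_T_even h]
  · rw [two_T_odd h]; omega

theorem step {ε b q : ℝ} (hε : 0 < ε) (hq : 0 < q)
    (hbad : ∀ k : ℕ, ((Bad ε k).card : ℝ) ≤ 4 * (2 * q) ^ k) {X J K : ℕ} {Y : ℝ}
    (hY1 : (2 : ℝ) ^ K ≤ Y) (hY2 : Y < 2 ^ (K + 1)) (hYX : Y ≤ X + 1) (hεK : 1 ≤ ε * K)
    (h1 : 1 ≤ 2 * Y * rho ε ^ K) (hK : (K : ℝ) ≤ 2 * Y * rho ε ^ K)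
    (hle : 2 * Y * rho ε ^ K ≤ Y)
    (hb : (K : ℝ) ≤ b * (Real.log Y - Real.log (2 * Y * rho ε ^ K)))
    (hJ : b * (Real.log (X + 1) - Real.log Y) ≤ J) (hJY : 2 * (J : ℝ) ≤ Y) (hY3 : 2 ≤ Y) :
    (NN b (1 / 4 + 2 * ε) X (2 * Y * rho ε ^ K) : ℝ) ≤
      NN b (1 / 4 + 2 * ε) X Y + 8 * q ^ K * (X + 1) * (J + 1) ^ 3 := by
  classical
  set Y' := 2 * Y * rho ε ^ K with hY'
  have hY0 : 0 < Y := by linarith
  have hY'0 : 0 < Y' := by linarith
  have hX0 : (0 : ℝ) ≤ X := Nat.cast_nonneg X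
  -- the covering
  have hsub : (range (X + 1)).filter (fun n => ¬ Gd b (1 / 4 + 2 * ε) X Y' n) ⊆
      (range (X + 1)).filter (fun n => ¬ Gd b (1 / 4 + 2 * ε) X Y n) ∪
      (Bad ε K).biUnion (fun z => (range (X + 1)).filter
        (fun n => n = z ∨ (Y / 2 ≤ (z : ℝ) ∧ ∃ j ≤ J, FP z j n))) := by
    intro n hn
    rw [mem_filter] at hn
    rw [mem_union, mem_filter, mem_biUnion]
    by_cases hG : Gd b (1 / 4 + 2 * ε) X Y n
    · right
      obtain ⟨j, hj1, hj2, hj3, hj4⟩ := hG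
      set z := T^[j] n with hz
      by_cases hzb : z ∈ Bad ε K
      · refine ⟨z, hzb, ?_⟩
        rw [mem_filter]
        refine ⟨hn.1, ?_⟩
        rcases Nat.eq_zero_or_pos j with hj0 | hj0
        · left
          rw [hz, hj0]
          rfl
        · right
          refine ⟨?_, j, ?_, hz.symm, fun i hi => ?_⟩
          · have e1 := hj2 (j - 1) (by omega)
            have e2 : z = T (T^[j - 1] n) := by
              rw [hz, ← Function.iterate_succ_apply' T (j - 1) n]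
              congr 2
              omega
            have e3 := le_two_T (T^[j - 1] n)
            rw [← e2] at e3
            have e4 : ((T^[j - 1] n : ℕ) : ℝ) ≤ 2 * (z : ℝ) := by exact_mod_cast e3
            linarith
          · have : (j : ℝ) ≤ J := hj3.trans hJ
            exact_mod_cast this
          · have e1 := hj2 i hi
            have e2 : (z : ℝ) ≤ (T^[i] n : ℕ) := by linarith
            exact_mod_cast e2
      · exfalso
        have hzr : z ∈ range (2 ^ (K + 1)) := by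
          rw [mem_range]
          have : (z : ℝ) < 2 ^ (K + 1) := lt_trans hj1 hY2
          exact_mod_cast this
        have hz2 : ¬ ((1 / 2 + ε) * K < od K z ∨ (1 / 4 + ε) * K < trw (word K z)) := by
          intro h
          apply hzb
          unfold Bad
          rw [mem_filter]
          exact ⟨hzr, h⟩
        push Not at hz2
        obtain ⟨i, hi1, hi2, hi3⟩ := stage hj1 hz2.1 h1 hK le_rfl
        apply hn.2
        refine ⟨j + i, ?_, fun l hl => ?_, ?_, ?_⟩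
        · rw [add_comm j i, Function.iterate_add_apply]
          exact hi2
        · by_cases hlj : l < j
          · exact hle.trans (hj2 l hlj)
          · have e1 : l = (l - j) + j := by omega
            rw [e1, Function.iterate_add_apply]
            exact hi3 (l - j) (by omega)
        · push_cast
          have e1 : (i : ℝ) ≤ K := by exact_mod_cast hi1
          linarith
        · rw [tr_add]
          push_cast
          have e1 : tr i (T^[j] n) ≤ trw (word K z) + 1 :=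
            (tr_mono hi1).trans (tr_le_trw K z)
          have e2 : (tr i (T^[j] n) : ℝ) ≤ trw (word K z) + 1 := by exact_mod_cast e1
          have e3 : (tr i (T^[j] n) : ℝ) ≤ (1 / 4 + 2 * ε) * K := by
            have := hz2.2
            nlinarith
          have e4 : (1 / 4 + 2 * ε) * K ≤ (1 / 4 + 2 * ε) * (b * (Real.log Y - Real.log Y')) :=
            mul_le_mul_of_nonneg_left hb (by linarith)
          have e5 : (1 / 4 + 2 * ε) * (b * (Real.log (X + 1) - Real.log Y)) +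
              (1 / 4 + 2 * ε) * (b * (Real.log Y - Real.log Y')) =
              (1 / 4 + 2 * ε) * (b * (Real.log (X + 1) - Real.log Y')) := by ring
          linarith
    · left
      exact ⟨hn.1, hG⟩
  -- the count
  have hz1 : ∀ z ∈ Bad ε K, (((range (X + 1)).filter
      (fun n => n = z ∨ (Y / 2 ≤ (z : ℝ) ∧ ∃ j ≤ J, FP z j n))).card : ℝ) ≤
        1 + (J + 1) ^ 2 * (1 + 2 * J * X / Y) := by
    intro z hz
    have hpos : (0 : ℝ) ≤ (J + 1) ^ 2 * (1 + 2 * J * X / Y) := by positivity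
    have hs : (range (X + 1)).filter (fun n => n = z ∨ (Y / 2 ≤ (z : ℝ) ∧ ∃ j ≤ J, FP z j n)) ⊆
        {z} ∪ (range (X + 1)).filter (fun n => Y / 2 ≤ (z : ℝ) ∧ ∃ j ≤ J, FP z j n) := by
      intro n hn
      rw [mem_filter] at hn
      rw [mem_union, mem_singleton, mem_filter]
      rcases hn.2 with h | h
      · exact Or.inl h
      · exact Or.inr ⟨hn.1, h⟩
    have h2 := (card_le_card hs).trans (card_union_le _ _)
    rw [card_singleton] at h2
    have h3 : (((range (X + 1)).filter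
      (fun n => n = z ∨ (Y / 2 ≤ (z : ℝ) ∧ ∃ j ≤ J, FP z j n))).card : ℝ) ≤
      1 + ((range (X + 1)).filter (fun n => Y / 2 ≤ (z : ℝ) ∧ ∃ j ≤ J, FP z j n)).card := by
      exact_mod_cast h2
    refine h3.trans ?_
    by_cases hYz : Y / 2 ≤ (z : ℝ)
    · have h4 : ((range (X + 1)).filter (fun n => Y / 2 ≤ (z : ℝ) ∧ ∃ j ≤ J, FP z j n)) =
          (range (X + 1)).filter (fun n => ∃ j ≤ J, FP z j n) := by
        refine filter_congr fun n _ => ?_
        exact ⟨fun h => h.2, fun h => ⟨hYz, h⟩⟩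
      rw [h4]
      have h5 : 1 ≤ z := by
        have : (1 : ℝ) ≤ z := by linarith
        exact_mod_cast this
      have h6 : J ≤ z := by
        have : (J : ℝ) ≤ z := by linarith
        exact_mod_cast this
      have h7 := card_fp X z J h5 h6
      have hzp : (0 : ℝ) < z := by exact_mod_cast h5
      have h8 : (J * X : ℝ) / z ≤ 2 * J * X / Y := by
        rw [div_le_div_iff₀ hzp hY0]
        have : (J * X : ℝ) * Y ≤ (J * X : ℝ) * (2 * z) :=
          mul_le_mul_of_nonneg_left (by linarith) (by positivity)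
        linarith
      have h9 : ((J : ℝ) + 1) ^ 2 * (1 + (J * X : ℝ) / z) ≤ (J + 1) ^ 2 * (1 + 2 * J * X / Y) :=
        mul_le_mul_of_nonneg_left (by linarith) (by positivity)
      linarith
    · have h4 : ((range (X + 1)).filter (fun n => Y / 2 ≤ (z : ℝ) ∧ ∃ j ≤ J, FP z j n)) = ∅ := by
        rw [filter_eq_empty_iff]
        exact fun n _ h => hYz h.1
      rw [h4, card_empty]
      push_cast
      linarith
  have h2 : (NN b (1 / 4 + 2 * ε) X Y' : ℝ) ≤ NN b (1 / 4 + 2 * ε) X Y +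
      (Bad ε K).card * (1 + (J + 1) ^ 2 * (1 + 2 * J * X / Y)) := by
    have e1 := (card_le_card hsub).trans (card_union_le _ _)
    have e2 : (NN b (1 / 4 + 2 * ε) X Y' : ℝ) ≤ NN b (1 / 4 + 2 * ε) X Y +
        ((Bad ε K).biUnion (fun z => (range (X + 1)).filter
        (fun n => n = z ∨ (Y / 2 ≤ (z : ℝ) ∧ ∃ j ≤ J, FP z j n)))).card := by
      unfold NN
      exact_mod_cast e1
    have e3 : (((Bad ε K).biUnion (fun z => (range (X + 1)).filter
        (fun n => n = z ∨ (Y / 2 ≤ (z : ℝ) ∧ ∃ j ≤ J, FP z j n)))).card : ℝ) ≤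
        ∑ z ∈ Bad ε K, (((range (X + 1)).filter
        (fun n => n = z ∨ (Y / 2 ≤ (z : ℝ) ∧ ∃ j ≤ J, FP z j n))).card : ℝ) := by
      exact_mod_cast card_biUnion_le
    have e4 := sum_le_card_nsmul _ _ _ hz1
    rw [nsmul_eq_mul] at e4
    linarith
  refine h2.trans ?_
  have h3 := hbad K
  have hJ0 : (0 : ℝ) ≤ J := Nat.cast_nonneg J
  have hpos : (0 : ℝ) ≤ 1 + (J + 1) ^ 2 * (1 + 2 * J * X / Y) := by positivity
  have h4 : ((Bad ε K).card : ℝ) * (1 + (J + 1) ^ 2 * (1 + 2 * J * X / Y)) ≤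
      4 * (2 * q) ^ K * (1 + (J + 1) ^ 2 * (1 + 2 * J * X / Y)) :=
    mul_le_mul_of_nonneg_right h3 hpos
  have hqK : 0 < q ^ K := by positivity
  have h5 : 4 * (2 * q) ^ K * (1 + (J + 1) ^ 2 * (1 + 2 * J * X / Y)) ≤
      4 * (q ^ K * Y) * (1 + (J + 1) ^ 2 * (1 + 2 * J * X / Y)) := by
    apply mul_le_mul_of_nonneg_right _ hpos
    rw [mul_pow]
    nlinarith
  have h6 : Y * (1 + (J + 1) ^ 2 * (1 + 2 * J * X / Y)) =
      Y * (1 + (J + 1) ^ 2) + (J + 1) ^ 2 * (2 * J * X) := by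
    field_simp
    ring
  have h7 : Y * (1 + ((J : ℝ) + 1) ^ 2) ≤ (X + 1) * (1 + (J + 1) ^ 2) :=
    mul_le_mul_of_nonneg_right hYX (by positivity)
  have h8 : ((J : ℝ) + 1) ^ 2 * (2 * J * X) ≤ (J + 1) ^ 2 * (2 * J * (X + 1)) := by
    apply mul_le_mul_of_nonneg_left _ (by positivity)
    nlinarith
  have h9 : ((X : ℝ) + 1) * (1 + (J + 1) ^ 2) + (J + 1) ^ 2 * (2 * J * (X + 1)) ≤
      (X + 1) * (2 * (J + 1) ^ 3) := by
    have : (1 : ℝ) ≤ (J + 1) ^ 2 := by nlinarith
    have e : ((X : ℝ) + 1) * (2 * (J + 1) ^ 3) - (((X : ℝ) + 1) * (1 + (J + 1) ^ 2) +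
        (J + 1) ^ 2 * (2 * J * (X + 1))) = (X + 1) * ((J + 1) ^ 2 - 1) := by ring
    have : 0 ≤ ((X : ℝ) + 1) * ((J + 1) ^ 2 - 1) := mul_nonneg (by linarith) (by linarith)
    linarith
  have h10 : 4 * (q ^ K * Y) * (1 + (J + 1) ^ 2 * (1 + 2 * J * X / Y)) ≤
      4 * q ^ K * ((X + 1) * (2 * (J + 1) ^ 3)) := by
    calc 4 * (q ^ K * Y) * (1 + (J + 1) ^ 2 * (1 + 2 * J * X / Y)) =
        4 * q ^ K * (Y * (1 + (J + 1) ^ 2 * (1 + 2 * J * X / Y))) := by ring
      _ ≤ 4 * q ^ K * ((X + 1) * (2 * (J + 1) ^ 3)) := by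
          apply mul_le_mul_of_nonneg_left _ (by positivity)
          rw [h6]
          linarith
  have h11 : 4 * q ^ K * ((X + 1) * (2 * ((J : ℝ) + 1) ^ 3)) = 8 * q ^ K * (X + 1) * (J + 1) ^ 3 := by ring
  linarith

end Pool.Agent.helper49.Pow
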