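import Pool.Agent.helper49.Pow.Word

/-!
# Few words are atypical
-/

namespace Pool.Agent.helper49.Pow

open Finset

theorem exists_s {ε : ℝ} (hε : 0 < ε) :
    ∃ s q : ℝ, 1 ≤ s ∧ 0 < q ∧ q < 1 ∧ 1 + s ≤ 2 * q * s ^ (1 / 2 + ε) := by
  refine ⟨Real.exp (4 * ε), Real.exp (-(2 * ε ^ 2)), Real.one_le_exp (by positivity),
    Real.exp_pos _, ?_, ?_⟩
  · rw [Real.exp_lt_one_iff]
    have : 0 < ε ^ 2 := by positivity
    linarith
  · have h1 : 1 + Real.exp (4 * ε) = 2 * (Real.exp (2 * ε) * Real.cosh (2 * ε)) := by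
      rw [Real.cosh_eq]
      have e1 : Real.exp (4 * ε) = Real.exp (2 * ε) * Real.exp (2 * ε) := by
        rw [← Real.exp_add]; ring_nf
      have e2 : Real.exp (2 * ε) * Real.exp (-(2 * ε)) = 1 := by
        rw [← Real.exp_add, add_neg_cancel, Real.exp_zero]
      rw [e1]
      nlinarith
    have h2 : Real.cosh (2 * ε) ≤ Real.exp (2 * ε ^ 2) := by
      refine (Real.cosh_le_exp_half_sq (2 * ε)).trans (le_of_eq ?_)
      congr 1
      ring
    have h3 : Real.exp (4 * ε) ^ (1 / 2 + ε) = Real.exp (2 * ε) * Real.exp (4 * ε ^ 2) := by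
      rw [← Real.exp_mul, ← Real.exp_add]
      congr 1
      ring
    have h4 : Real.exp (-(2 * ε ^ 2)) * Real.exp (4 * ε ^ 2) = Real.exp (2 * ε ^ 2) := by
      rw [← Real.exp_add]
      congr 1
      ring
    rw [h1, h3]
    calc 2 * (Real.exp (2 * ε) * Real.cosh (2 * ε)) ≤ 2 * (Real.exp (2 * ε) * Real.exp (2 * ε ^ 2)) := by
          have := mul_le_mul_of_nonneg_left h2 (Real.exp_pos (2 * ε)).le
          linarith
      _ = 2 * Real.exp (-(2 * ε ^ 2)) * (Real.exp (2 * ε) * Real.exp (4 * ε ^ 2)) := by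
          rw [← h4]; ring

theorem card_of_sum {k : ℕ} {S : Finset ℕ} {g : ℕ → ℝ} {s q θ : ℝ} (hs : 1 ≤ s) (hq : 0 < q)
    (hsq : 1 + s ≤ 2 * q * s ^ θ) (hg : ∀ n ∈ S, s ^ (θ * k) ≤ g n)
    (hsum : ∑ n ∈ S, g n ≤ (1 + s) ^ k) : (S.card : ℝ) ≤ (2 * q) ^ k := by
  have hs0 : 0 < s := by linarith
  have h1 : (S.card : ℝ) * s ^ (θ * k) ≤ ∑ n ∈ S, g n := by
    rw [← nsmul_eq_mul]
    exact card_nsmul_le_sum S g _ hg
  have h2 : (1 + s) ^ k ≤ (2 * q) ^ k * s ^ (θ * k) := by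
    calc (1 + s) ^ k ≤ (2 * q * s ^ θ) ^ k := pow_le_pow_left₀ (by linarith) hsq k
      _ = (2 * q) ^ k * (s ^ θ) ^ k := mul_pow _ _ _
      _ = (2 * q) ^ k * s ^ (θ * k) := by rw [Real.rpow_mul hs0.le, Real.rpow_natCast]
  have h3 : 0 < s ^ (θ * k) := Real.rpow_pos_of_pos hs0 _
  exact le_of_mul_le_mul_right ((h1.trans hsum).trans h2) h3

theorem bad_count {ε : ℝ} (hε : 0 < ε) : ∃ q : ℝ, 0 < q ∧ q < 1 ∧ ∀ (k : ℕ) (S : Finset ℕ),
    (∀ n ∈ S, ∀ m ∈ S, n ≡ m [MOD 2 ^ k] → n = m) →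
    ((S.filter (fun n => (1 / 2 + ε) * k < od k n ∨ (1 / 4 + ε) * k < trw (word k n))).card : ℝ) ≤
      2 * (2 * q) ^ k := by
  obtain ⟨s, q1, hs, hq1, hq11, h1⟩ := exists_s hε
  obtain ⟨u, q2, hu, hq2, hq22, h2⟩ := exists_s (show 0 < 2 * ε by linarith)
  refine ⟨max q1 q2, lt_max_of_lt_left hq1, max_lt hq11 hq22, ?_⟩
  intro k S hS
  have hs0 : 0 < s := by linarith
  have hu0 : 0 < u := by linarith
  have hA : ((S.filter (fun n => (1 / 2 + ε) * k < od k n)).card : ℝ) ≤ (2 * q1) ^ k := by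
    refine card_of_sum (g := fun n => s ^ (od k n)) hs hq1 h1 ?_ ?_
    · intro n hn
      have := (mem_filter.1 hn).2
      show s ^ ((1 / 2 + ε) * k) ≤ s ^ (od k n)
      rw [← Real.rpow_natCast]
      exact Real.rpow_le_rpow_of_exponent_le hs this.le
    · have h3 := sum_le k (fun w => s ^ (w.count true)) (fun w => by positivity)
        (S.filter (fun n => (1 / 2 + ε) * k < od k n))
        (fun n hn m hm => hS n (mem_filter.1 hn).1 m (mem_filter.1 hm).1)
      rw [Sm_count] at h3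
      simp only [od_word] at h3
      exact h3
  have hB : ((S.filter (fun n => (1 / 4 + ε) * k < trw (word k n))).card : ℝ) ≤ (2 * q2) ^ k := by
    refine card_of_sum (g := fun n => (u ^ 2) ^ (trw (word k n))) hu hq2 h2 ?_ ?_
    · intro n hn
      have := (mem_filter.1 hn).2
      show u ^ ((1 / 2 + 2 * ε) * k) ≤ (u ^ 2) ^ (trw (word k n))
      rw [← pow_mul, ← Real.rpow_natCast]
      refine Real.rpow_le_rpow_of_exponent_le hu ?_
      push_cast
      linarith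
    · have h3 := sum_le k (fun w => (u ^ 2) ^ (trw w)) (fun w => by positivity)
        (S.filter (fun n => (1 / 4 + ε) * k < trw (word k n)))
        (fun n hn m hm => hS n (mem_filter.1 hn).1 m (mem_filter.1 hm).1)
      refine h3.trans ?_
      have h4 := (Sm_trw k hu).1
      simp only [trw_false] at h4
      exact h4
  have hsub : (S.filter (fun n => (1 / 2 + ε) * k < od k n ∨ (1 / 4 + ε) * k < trw (word k n))) ⊆
      S.filter (fun n => (1 / 2 + ε) * k < od k n) ∪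
      S.filter (fun n => (1 / 4 + ε) * k < trw (word k n)) := by
    intro n hn
    rw [mem_filter] at hn
    rw [mem_union, mem_filter, mem_filter]
    rcases hn.2 with h | h
    · exact Or.inl ⟨hn.1, h⟩
    · exact Or.inr ⟨hn.1, h⟩
  have h5 := (card_le_card hsub).trans (card_union_le _ _)
  have h6 : ((S.filter (fun n => (1 / 2 + ε) * k < od k n ∨ (1 / 4 + ε) * k < trw (word k n))).card : ℝ) ≤
      (S.filter (fun n => (1 / 2 + ε) * k < od k n)).card +
      (S.filter (fun n => (1 / 4 + ε) * k < trw (word k n))).card := by exact_mod_cast h5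
  have h7 : (2 * q1) ^ k ≤ (2 * max q1 q2) ^ k :=
    pow_le_pow_left₀ (by positivity) (by linarith [le_max_left q1 q2]) k
  have h8 : (2 * q2) ^ k ≤ (2 * max q1 q2) ^ k :=
    pow_le_pow_left₀ (by positivity) (by linarith [le_max_right q1 q2]) k
  linarith

/-- The bad integers below `Y`, `2 ^ k ≤ Y < 2 ^ (k + 1)`. -/
noncomputable def Bad (ε : ℝ) (k : ℕ) : Finset ℕ :=
  (range (2 ^ (k + 1))).filter (fun n => (1 / 2 + ε) * k < od k n ∨ (1 / 4 + ε) * k < trw (word k n))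

theorem card_Bad {ε : ℝ} (hε : 0 < ε) : ∃ q : ℝ, 0 < q ∧ q < 1 ∧ ∀ k : ℕ,
    ((Bad ε k).card : ℝ) ≤ 4 * (2 * q) ^ k := by
  obtain ⟨q, hq, hq1, h⟩ := bad_count hε
  refine ⟨q, hq, hq1, fun k => ?_⟩
  have h1 := h k (range (2 ^ k)) (by
    intro n hn m hm hnm
    exact Nat.ModEq.eq_of_lt_of_lt hnm (mem_range.1 hn) (mem_range.1 hm))
  have h2 := h k (Ico (2 ^ k) (2 ^ (k + 1))) (by
    intro n hn m hm hnm
    rw [mem_Ico] at hn hm
    have e : 2 ^ (k + 1) = 2 ^ k + 2 ^ k := by ring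
    have h3 : n - 2 ^ k ≡ m - 2 ^ k [MOD 2 ^ k] := by
      have e1 : n = (n - 2 ^ k) + 2 ^ k := by omega
      have e2 : m = (m - 2 ^ k) + 2 ^ k := by omega
      rw [e1, e2] at hnm
      exact Nat.ModEq.add_right_cancel' _ hnm
    have h4 := Nat.ModEq.eq_of_lt_of_lt h3 (by omega) (by omega)
    omega)
  have hsub : Bad ε k ⊆ (range (2 ^ k)).filter (fun n => (1 / 2 + ε) * k < od k n ∨
      (1 / 4 + ε) * k < trw (word k n)) ∪
      (Ico (2 ^ k) (2 ^ (k + 1))).filter (fun n => (1 / 2 + ε) * k < od k n ∨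
      (1 / 4 + ε) * k < trw (word k n)) := by
    intro n hn
    unfold Bad at hn
    rw [mem_filter, mem_range] at hn
    rw [mem_union, mem_filter, mem_filter, mem_range, mem_Ico]
    by_cases h5 : n < 2 ^ k
    · exact Or.inl ⟨h5, hn.2⟩
    · exact Or.inr ⟨⟨by omega, hn.1⟩, hn.2⟩
  have h5 := (card_le_card hsub).trans (card_union_le _ _)
  have h6 : ((Bad ε k).card : ℝ) ≤ ((range (2 ^ k)).filter (fun n => (1 / 2 + ε) * k < od k n ∨
      (1 / 4 + ε) * k < trw (word k n))).card +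
      ((Ico (2 ^ k) (2 ^ (k + 1))).filter (fun n => (1 / 2 + ε) * k < od k n ∨
      (1 / 4 + ε) * k < trw (word k n))).card := by exact_mod_cast h5
  linarith

end Pool.Agent.helper49.Pow
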