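import Pool.Agent.helper49.Pow.Final
import Pool.Agent.helper49.Dich.Trans

/-!
# The number of circuits along the descent
-/

namespace Pool.Agent.helper49.Pow

open Finset Pool.Agent.helper41.Coll Pool.Agent.helper14.EX1 Pool.Agent.helper49.Dich

theorem f_eq_T {n : ℕ} (h : n ≠ 1) : f n = T n := by
  unfold f T
  rw [if_neg h]

theorem iter_eq (j : ℕ) : ∀ n : ℕ, (∀ i < j, 2 ≤ T^[i] n) → f^[j] n = T^[j] n := by
  induction j with
  | zero => intro n _; rfl
  | succ j ih =>
    intro n h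
    have h0 : 2 ≤ n := h 0 (by omega)
    rw [Function.iterate_succ_apply, Function.iterate_succ_apply, f_eq_T (by omega)]
    exact ih (T n) (fun i hi => by
      have := h (i + 1) (by omega)
      rwa [Function.iterate_succ_apply] at this)

theorem hasC_tr (j : ℕ) : ∀ (n c : ℕ), (∀ i < j, 2 ≤ T^[i] n) → HasC (T^[j] n) c →
    HasC n (c + tr j n) := by
  induction j with
  | zero => intro n c _ h; exact h
  | succ j ih =>
    intro n c h hc
    have h0 : 2 ≤ n := h 0 (by omega)
    rw [Function.iterate_succ_apply] at hc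
    have h1 := ih (T n) c (fun i hi => by
      have := h (i + 1) (by omega)
      rwa [Function.iterate_succ_apply] at this) hc
    rw [← f_eq_T (by omega : n ≠ 1)] at h1
    show HasC n (c + ((if n % 2 = 1 ∧ T n % 2 = 0 then 1 else 0) + tr j (T n)))
    rw [← f_eq_T (by omega : n ≠ 1)]
    rcases Nat.even_or_odd n with he | ho
    · rw [if_neg (by rintro ⟨h2, -⟩; exact absurd (Nat.even_iff.1 he) (by omega)), zero_add]
      exact CirG_even he h1
    · rcases Nat.even_or_odd (f n) with hf | hf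
      · rw [if_pos ⟨Nat.odd_iff.1 ho, Nat.even_iff.1 hf⟩]
        have := CirG_odd_even ho (by omega) hf h1
        rwa [show c + (1 + tr j (f n)) = c + tr j (f n) + 1 by omega]
      · rw [if_neg (by rintro ⟨-, h2⟩; exact absurd (Nat.odd_iff.1 hf) (by omega)), zero_add]
        exact CirG_odd_odd ho (by omega) hf h1

/-- The circuits of `n` up to the iterate number `j` and the circuits from there. -/
theorem hasC_split {j n c : ℕ} (h : ∀ i < j, 2 ≤ T^[i] n) (hc : HasC n c) :
    ∃ c' : ℕ, HasC (f^[j] n) c' ∧ c = c' + tr j n := by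
  obtain ⟨i, hi⟩ := hasC_reach hc
  have h1 : f^[i] (f^[j] n) = 1 := by
    rw [← Function.iterate_add_apply, add_comm, Function.iterate_add_apply, hi, f_one]
  obtain ⟨c', hc'⟩ := exists_hasC h1
  refine ⟨c', hc', ?_⟩
  rw [iter_eq j n h] at hc'
  exact hasC_unique hc (hasC_tr j n c' h hc')

/-- **Theorem U.** -/
theorem circuits_descent {K : ℝ} (hK : 1 / Real.log (16 / 9) < K) :
    ∃ (c : ℝ) (A X0 : ℕ), 0 < c ∧ ∀ (X : ℕ) (Z : ℝ), X0 ≤ X → Real.log X ^ A ≤ Z → Z ≤ X →
      ((Nat.card {n : ℕ // 1 ≤ n ∧ n ≤ X ∧ ¬ ∃ j : ℕ, (j : ℝ) ≤ 4 * K * Real.log n ∧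
        ((f^[j] n : ℕ) : ℝ) < Z ∧
        ∀ C : ℕ, HasC n C → ∃ C' : ℕ, HasC (f^[j] n) C' ∧ (C : ℝ) ≤ K * Real.log n + C'} : ℕ) : ℝ) ≤
        X * Z ^ (-c) := by
  classical
  obtain ⟨c, A, X0, hc, H⟩ := final hK
  refine ⟨c, A, X0, hc, fun X Z hX hZ hZX => le_trans ?_ (H X Z hX hZ hZX)⟩
  have h1 : Nat.card {n : ℕ // 1 ≤ n ∧ n ≤ X ∧ ¬ ∃ j : ℕ, (j : ℝ) ≤ 4 * K * Real.log n ∧
      ((f^[j] n : ℕ) : ℝ) < Z ∧
      ∀ C : ℕ, HasC n C → ∃ C' : ℕ, HasC (f^[j] n) C' ∧ (C : ℝ) ≤ K * Real.log n + C'} ≤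
      (EZ K X Z).card := by
    rw [← Nat.card_eq_finsetCard]
    refine Nat.card_le_card_of_injective (fun n => ⟨n.1, ?_⟩) ?_
    · obtain ⟨n, h1, h2, h3⟩ := n
      show n ∈ EZ K X Z
      unfold EZ
      rw [mem_filter, mem_range]
      refine ⟨by omega, fun h => h3 ?_⟩
      obtain ⟨j, h4, h5, h6, h7⟩ := h
      refine ⟨j, by linarith, ?_, fun C hC => ?_⟩
      · rw [iter_eq j n h5]
        exact h4
      · obtain ⟨C', hC', e⟩ := hasC_split h5 hC
        refine ⟨C', hC', ?_⟩
        rw [e]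
        push_cast
        linarith
    · intro a b h
      have := congrArg Subtype.val h
      exact Subtype.ext this
  exact_mod_cast h1

/-- The bound of the question for all `n` gives a power saving for every constant above the typical one. -/
theorem saving_of_q1 (h : ∃ K : ℝ, ∀ n : ℕ, 2 ≤ n → ∀ c : ℕ, HasC n c → (c : ℝ) ≤ K * Real.log n)
    {K : ℝ} (hK : 1 / Real.log (16 / 9) < K) :
    ∃ δ x0 : ℝ, 0 < δ ∧ ∀ x : ℝ, x0 ≤ x → (Exc K x : ℝ) ≤ x ^ (1 - δ) := by
  classical
  obtain ⟨K2, hK2⟩ := h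
  obtain ⟨K', hK'1, hK'2⟩ := exists_between hK
  obtain ⟨c, A, X0, hc, H⟩ := final hK'1
  have hK'0 : 0 < K' := lt_trans (by
    have : 0 < Real.log (16 / 9) := Real.log_pos (by norm_num)
    positivity) hK'1
  have hKK : 0 < K - K' := by linarith
  set K3 : ℝ := max K2 1 with hK3
  have hK31 : 1 ≤ K3 := le_max_right _ _
  set η : ℝ := min (1 / 2) ((K - K') / (2 * K3)) with hη
  have hη0 : 0 < η := lt_min (by norm_num) (div_pos hKK (by linarith))
  have hη1 : η ≤ 1 / 2 := min_le_left _ _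
  have hη2 : K3 * (2 * η) ≤ K - K' := by
    have h1 : η ≤ (K - K') / (2 * K3) := min_le_right _ _
    have h2 := (le_div_iff₀ (by linarith)).1 h1
    linarith
  -- the exponent
  set δ : ℝ := min (η * c) (1 / 2) / 2 with hδ
  have hδ0 : 0 < δ := by
    have : 0 < min (η * c) (1 / 2) := lt_min (by positivity) (by norm_num)
    linarith
  have hδ1 : δ ≤ η * c / 2 := by
    have := min_le_left (η * c) (1 / 2)
    linarith
  have hδ2 : δ ≤ 1 / 4 := by
    have := min_le_right (η * c) (1 / 2)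
    linarith
  -- thresholds
  have ev1 : ∀ᶠ X : ℕ in Filter.atTop, Real.log X ^ A ≤ (X : ℝ) ^ η := by
    have h1 := isLittleO_log_rpow_rpow_atTop (s := η) (A : ℝ) hη0
    have h2 := h1.bound (show (0 : ℝ) < 1 by norm_num)
    have h3 := tendsto_natCast_atTop_atTop.eventually h2
    filter_upwards [h3, Filter.eventually_ge_atTop 1] with X h4 h5
    have h6 : (1 : ℝ) ≤ X := by exact_mod_cast h5
    rw [Real.norm_of_nonneg (Real.rpow_nonneg (Real.log_nonneg h6) _),
      Real.norm_of_nonneg (by positivity), one_mul, Real.rpow_natCast] at h4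
    exact h4
  have ev2 : ∀ᶠ X : ℕ in Filter.atTop, (3 : ℝ) ≤ (X : ℝ) ^ δ := by
    have h1 := (tendsto_rpow_atTop hδ0).comp tendsto_natCast_atTop_atTop
    exact h1.eventually_ge_atTop 3
  obtain ⟨N1, hN1⟩ := Filter.eventually_atTop.1 (ev1.and ev2)
  refine ⟨δ, (max (max N1 X0) 1 : ℕ) + 1, hδ0, fun x hx => ?_⟩
  set X : ℕ := ⌊x⌋₊ with hX
  have hx0 : 0 ≤ x := by
    have : (0 : ℝ) ≤ ((max (max N1 X0) 1 : ℕ) : ℝ) := Nat.cast_nonneg _
    linarith
  have hXx : (X : ℝ) ≤ x := Nat.floor_le hx0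
  have hXN : max (max N1 X0) 1 ≤ X := by
    apply Nat.le_floor
    linarith
  have hXN1 : N1 ≤ X := ((le_max_left _ _).trans (le_max_left _ _)).trans hXN
  have hXX0 : X0 ≤ X := ((le_max_right _ _).trans (le_max_left _ _)).trans hXN
  have hX1 : 1 ≤ X := (le_max_right _ _).trans hXN
  have hX1' : (1 : ℝ) ≤ X := by exact_mod_cast hX1
  have hXp : (0 : ℝ) < X := by linarith
  obtain ⟨g1, g2⟩ := hN1 X hXN1
  set Z : ℝ := (X : ℝ) ^ η with hZ
  have hZX : Z ≤ X := by
    calc Z ≤ (X : ℝ) ^ (1 : ℝ) := Real.rpow_le_rpow_of_exponent_le hX1' (by linarith)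
      _ = X := Real.rpow_one _
  have hH := H X Z hXX0 g1 hZX
  -- the covering
  have hsub : (Icc 2 ⌊x⌋₊).filter (fun n : ℕ => ∃ c : ℕ, HasC n c ∧ K * Real.log n < c) ⊆
      EZ K' X Z ∪ range (⌊(X : ℝ) ^ (1 / 2 : ℝ)⌋₊ + 1) := by
    intro n hn
    rw [mem_filter, mem_Icc] at hn
    obtain ⟨⟨hn2, hnX⟩, C, hC, hCK⟩ := hn
    rw [mem_union, mem_range]
    by_cases h1 : n < ⌊(X : ℝ) ^ (1 / 2 : ℝ)⌋₊ + 1
    · exact Or.inr h1
    · left
      unfold EZ
      rw [mem_filter, mem_range]
      refine ⟨by omega, fun h => ?_⟩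
      obtain ⟨j, h2, h3, h4, -⟩ := h
      obtain ⟨C', hC', e⟩ := hasC_split h3 hC
      have hn2' : (2 : ℝ) ≤ n := by exact_mod_cast hn2
      have hlogn : 0 < Real.log n := Real.log_pos (by linarith)
      have h5 : (X : ℝ) ^ (1 / 2 : ℝ) ≤ n := by
        have h6 := Nat.lt_floor_add_one ((X : ℝ) ^ (1 / 2 : ℝ))
        have h7 : ((⌊(X : ℝ) ^ (1 / 2 : ℝ)⌋₊ + 1 : ℕ) : ℝ) ≤ n := by exact_mod_cast not_lt.1 h1
        push_cast at h7
        linarith
      have h6 : Real.log X ≤ 2 * Real.log n := by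
        have h7 : Real.log ((X : ℝ) ^ (1 / 2 : ℝ)) ≤ Real.log n := Real.log_le_log (by positivity) h5
        rw [Real.log_rpow hXp] at h7
        linarith
      -- the bound for `C'`
      have h7 : (C' : ℝ) ≤ (K - K') * Real.log n := by
        set m := f^[j] n with hm
        have hmT : m = T^[j] n := iter_eq j n h3
        by_cases hm2 : 2 ≤ m
        · have h8 := hK2 m hm2 C' hC'
          have hm2' : (2 : ℝ) ≤ m := by exact_mod_cast hm2
          have hlogm : 0 ≤ Real.log m := Real.log_nonneg (by linarith)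
          have h9 : Real.log m ≤ η * Real.log X := by
            have h10 : Real.log m ≤ Real.log Z := Real.log_le_log (by linarith) (by
              rw [hmT]
              exact h2.le)
            rwa [hZ, Real.log_rpow hXp] at h10
          calc (C' : ℝ) ≤ K2 * Real.log m := h8
            _ ≤ K3 * Real.log m := mul_le_mul_of_nonneg_right (le_max_left _ _) hlogm
            _ ≤ K3 * (η * Real.log X) := mul_le_mul_of_nonneg_left h9 (by linarith)
            _ ≤ K3 * (η * (2 * Real.log n)) := by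
                apply mul_le_mul_of_nonneg_left _ (by linarith)
                exact mul_le_mul_of_nonneg_left h6 hη0.le
            _ = K3 * (2 * η) * Real.log n := by ring
            _ ≤ (K - K') * Real.log n := mul_le_mul_of_nonneg_right hη2 hlogn.le
        · have hmle : m ≤ 1 := by omega
          have hC'0 : C' = 0 := by
            obtain ⟨i, hi1, hi2, hi3⟩ := hC'
            have hm1 : m = 1 := by
              by_contra hne
              have hm0 : m = 0 := by omega
              rw [hm0] at hi2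
              have : ∀ i, f^[i] 0 = 0 := by
                intro i
                induction i with
                | zero => rfl
                | succ i ih => rw [Function.iterate_succ_apply', ih]; rfl
              rw [this] at hi2
              exact absurd hi2 (by decide)
            rw [hm1, f_one] at hi3
            exact hasC_unique ⟨0, fun i hi => absurd hi (Nat.not_lt_zero i), odd_one, hi3⟩ Cir_one
          rw [hC'0]
          push_cast
          exact mul_nonneg hKK.le hlogn.le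
      have h8 : (C : ℝ) ≤ K * Real.log n := by
        rw [e]
        push_cast
        linarith
      linarith
  have hcard : (Exc K x : ℝ) ≤ (EZ K' X Z).card + ((X : ℝ) ^ (1 / 2 : ℝ) + 1) := by
    have h1 := (card_le_card hsub).trans (card_union_le _ _)
    rw [card_range] at h1
    have h2 : (Exc K x : ℝ) ≤ (EZ K' X Z).card + (⌊(X : ℝ) ^ (1 / 2 : ℝ)⌋₊ + 1) := by
      unfold Exc
      exact_mod_cast h1
    have h3 := Nat.floor_le (show 0 ≤ (X : ℝ) ^ (1 / 2 : ℝ) by positivity)
    linarith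
  have hXd : (X : ℝ) ^ (1 - δ) = X ^ (1 - 2 * δ) * X ^ δ := by
    rw [← Real.rpow_add hXp]
    congr 1
    ring
  have hXd0 : 0 < (X : ℝ) ^ (1 - 2 * δ) := by positivity
  have f1 : (X : ℝ) * Z ^ (-c) ≤ X ^ (1 - 2 * δ) := by
    have h1 : (X : ℝ) * Z ^ (-c) = X ^ (1 - η * c) := by
      rw [hZ, ← Real.rpow_mul hXp.le]
      nth_rewrite 1 [← Real.rpow_one (X : ℝ)]
      rw [← Real.rpow_add hXp]
      congr 1
      ring
    rw [h1]
    exact Real.rpow_le_rpow_of_exponent_le hX1' (by linarith)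
  have f2 : (X : ℝ) ^ (1 / 2 : ℝ) ≤ X ^ (1 - 2 * δ) :=
    Real.rpow_le_rpow_of_exponent_le hX1' (by linarith)
  have f3 : (1 : ℝ) ≤ X ^ (1 - 2 * δ) := Real.one_le_rpow hX1' (by linarith)
  have f4 : 3 * (X : ℝ) ^ (1 - 2 * δ) ≤ X ^ (1 - δ) := by
    rw [hXd]
    nlinarith
  calc (Exc K x : ℝ) ≤ X ^ (1 - δ) := by linarith
    _ ≤ x ^ (1 - δ) := Real.rpow_le_rpow hXp.le hXx (by linarith)

end Pool.Agent.helper49.Pow
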