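import Pool.Agent.helper49.Pow.Iter

/-!
# Power saving for the descent
-/

namespace Pool.Agent.helper49.Pow

open Finset

theorem exists_eps {K : ℝ} (hK : 1 / Real.log (16 / 9) < K) :
    ∃ ε b : ℝ, 0 < ε ∧ 0 < lam ε ∧ 1 < b * lam ε ∧ (1 / 4 + 2 * ε) * b < K := by
  have h169 : Real.log (16 / 9) = 4 * Real.log 2 - 2 * Real.log 3 := by
    rw [Real.log_div (by norm_num) (by norm_num)]
    have e1 : Real.log 16 = 4 * Real.log 2 := by
      rw [show (16 : ℝ) = 2 ^ 4 by norm_num, Real.log_pow]; norm_num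
    have e2 : Real.log 9 = 2 * Real.log 3 := by
      rw [show (9 : ℝ) = 3 ^ 2 by norm_num, Real.log_pow]; norm_num
    rw [e1, e2]
  have hpos : 0 < Real.log (16 / 9) := Real.log_pos (by norm_num)
  have hK0 : 0 < K := lt_trans (by positivity) hK
  have hl3 : 0 < Real.log 3 := Real.log_pos (by norm_num)
  have h1 : 1 < K * Real.log (16 / 9) := (div_lt_iff₀ hpos).1 hK
  rw [h169] at h1
  set δ : ℝ := K * (Real.log 2 - 1 / 2 * Real.log 3) - 1 / 4 with hδ
  have hδ0 : 0 < δ := by rw [hδ]; linarith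
  set ε : ℝ := δ / (2 * (2 + K * Real.log 3)) with hε
  have hden : 0 < 2 + K * Real.log 3 := by positivity
  have hε0 : 0 < ε := by positivity
  have hε1 : ε * (2 + K * Real.log 3) = δ / 2 := by
    rw [hε]; field_simp
  have hlam : 1 / 4 + 2 * ε < K * lam ε := by
    have e1 : K * lam ε = K * (Real.log 2 - 1 / 2 * Real.log 3) - K * ε * Real.log 3 := by
      unfold lam; ring
    rw [e1]
    have e2 : 2 * ε + K * ε * Real.log 3 = δ / 2 := by rw [← hε1]; ring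
    linarith
  have hl0 : 0 < lam ε := by
    by_contra h
    push Not at h
    have : K * lam ε ≤ 0 := mul_nonpos_of_nonneg_of_nonpos hK0.le h
    linarith
  have hμ : 0 < 1 / 4 + 2 * ε := by linarith
  obtain ⟨b, hb1, hb2⟩ := exists_between (show 1 / lam ε < K / (1 / 4 + 2 * ε) by
    rw [div_lt_div_iff₀ hl0 hμ]
    linarith)
  refine ⟨ε, b, hε0, hl0, (div_lt_iff₀ hl0).1 hb1, ?_⟩
  have := (lt_div_iff₀ hμ).1 hb2
  linarith

open Classical in
/-- The integers `n ≤ X` without a typical descent below `Z`. -/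
noncomputable def EX (K1 : ℝ) (X : ℕ) (Z : ℝ) : Finset ℕ :=
  (range (X + 1)).filter (fun n => ¬ ∃ j : ℕ, ((T^[j] n : ℕ) : ℝ) < Z ∧ (∀ i < j, 2 ≤ T^[i] n) ∧
    (tr j n : ℝ) ≤ K1 * Real.log (X + 1) ∧ (j : ℝ) ≤ 4 * (K1 * Real.log (X + 1)))

theorem core {K : ℝ} (hK : 1 / Real.log (16 / 9) < K) :
    ∃ K1 c0 C B : ℝ, 0 < K1 ∧ K1 < K ∧ 0 < c0 ∧ 0 < C ∧ 0 < B ∧ ∀ (X : ℕ) (Z : ℝ),
      (B * (Real.log (X + 1) + 1)) ^ 2 ≤ Z → Z ≤ X + 1 →
        ((EX K1 X Z).card : ℝ) ≤ C * (Real.log (X + 1) + 1) ^ 4 * (X + 1) * Z ^ (-c0) := by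
  classical
  obtain ⟨ε, b, hε, hl, hb, hbK⟩ := exists_eps hK
  obtain ⟨q, hq, hq1, hbad⟩ := card_Bad hε
  obtain ⟨Kmin, hmin⟩ := exists_Kmin hε hl hb
  have hl2 : 0 < Real.log 2 := Real.log_pos (by norm_num)
  have hb0 : 0 < b := by
    by_contra h
    push Not at h
    have : b * lam ε ≤ 0 := mul_nonpos_of_nonpos_of_nonneg h hl.le
    linarith
  have hb2 : 1 ≤ b * Real.log 2 := by
    have h1 := mul_lt_mul_of_pos_left (lam_lt hε) hb0
    linarith
  set B : ℝ := b + 2 + 2 ^ (Kmin + 1) with hB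
  have hB0 : 0 < B := by positivity
  have hlq : Real.log q < 0 := Real.log_neg hq hq1
  refine ⟨(1 / 4 + 2 * ε) * b, -(Real.log q / Real.log 2), 8 / q * (b + 2) ^ 4, B, by positivity, hbK,
    by rw [neg_pos]; exact div_neg_of_neg_of_pos hlq hl2, by positivity, hB0, ?_⟩
  intro X Z hZ hZX
  set L : ℝ := Real.log (X + 1) with hL
  have hX0 : (0 : ℝ) ≤ X := Nat.cast_nonneg X
  have hL0 : 0 ≤ L := Real.log_nonneg (by linarith)
  set J : ℕ := ⌈b * L⌉₊ with hJ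
  have hJ1 : b * L ≤ J := Nat.le_ceil _
  have hJ2 : (J : ℝ) + 1 ≤ (b + 2) * (L + 1) := by
    have h1 : (J : ℝ) < b * L + 1 := Nat.ceil_lt_add_one (by positivity)
    have h2 : 0 ≤ b := hb0.le
    nlinarith
  have hJ0 : (0 : ℝ) ≤ J := Nat.cast_nonneg J
  have hbB : b + 2 ≤ B := by
    rw [hB]
    have : (0 : ℝ) < 2 ^ (Kmin + 1) := by positivity
    linarith
  have hZJ : ((J : ℝ) + 1) ^ 2 ≤ Z := by
    refine le_trans (pow_le_pow_left₀ (by positivity) ?_ 2) hZ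
    exact hJ2.trans (mul_le_mul_of_nonneg_right hbB (by linarith))
  have hZK : (2 : ℝ) ^ (Kmin + 1) ≤ Z := by
    refine le_trans ?_ hZ
    have h1 : (2 : ℝ) ^ (Kmin + 1) ≤ B * (L + 1) := by
      have h2 : (2 : ℝ) ^ (Kmin + 1) ≤ B := by rw [hB]; linarith
      nlinarith
    have h3 : (1 : ℝ) ≤ 2 ^ (Kmin + 1) := one_le_pow₀ (by norm_num)
    nlinarith
  have hZ2 : 2 ≤ Z := by
    refine le_trans ?_ hZK
    rw [pow_succ]
    have : (1 : ℝ) ≤ 2 ^ Kmin := one_le_pow₀ (by norm_num)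
    linarith
  set m : ℕ := Nat.log 2 (X + 1) + 1 with hm
  obtain ⟨Y, hY2, hYX, hY, hN⟩ := iterate hε hq hq1 hbad hl hb hmin hJ1 hZJ hZX hZK m
  have hYZ : Y < Z := by
    rcases hY with h | ⟨h1, h2⟩
    · exact h
    · exfalso
      have h3 : X + 1 < 2 ^ m := Nat.lt_pow_succ_log_self (by norm_num) _
      have h4 : ((X : ℝ) + 1) < 2 ^ m := by exact_mod_cast h3
      have h5 : ((X : ℝ) + 1) / 2 ^ m < 1 := by
        rw [div_lt_one (by positivity)]
        exact h4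
      linarith
  have hmJ : (m : ℝ) ≤ J + 1 := by
    have h1 : 2 ^ (Nat.log 2 (X + 1)) ≤ X + 1 := Nat.pow_log_le_self 2 (by omega)
    have h2 : (2 : ℝ) ^ (Nat.log 2 (X + 1)) ≤ X + 1 := by exact_mod_cast h1
    have h3 : (Nat.log 2 (X + 1) : ℝ) * Real.log 2 ≤ L := by
      rw [← Real.log_pow]
      exact Real.log_le_log (by positivity) h2
    have h4 : (Nat.log 2 (X + 1) : ℝ) ≤ Nat.log 2 (X + 1) * (b * Real.log 2) :=
      le_mul_of_one_le_right (Nat.cast_nonneg _) hb2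
    have h5 : b * (Nat.log 2 (X + 1) * Real.log 2) ≤ b * L := mul_le_mul_of_nonneg_left h3 hb0.le
    have h6 : (Nat.log 2 (X + 1) : ℝ) * (b * Real.log 2) = b * (Nat.log 2 (X + 1) * Real.log 2) := by ring
    rw [hm]
    push_cast
    linarith
  have hsub : EX ((1 / 4 + 2 * ε) * b) X Z ⊆
      (range (X + 1)).filter (fun n => ¬ Gd b (1 / 4 + 2 * ε) X Y n) := by
    intro n hn
    unfold EX at hn
    rw [mem_filter] at hn ⊢
    refine ⟨hn.1, fun h => hn.2 ?_⟩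
    obtain ⟨j, h1, h2, h3, h4⟩ := h
    refine ⟨j, h1.trans hYZ, fun i hi => ?_, h4.trans ?_, h3.trans ?_⟩
    · have := h2 i hi
      have h5 : (2 : ℝ) ≤ (T^[i] n : ℕ) := by linarith
      exact_mod_cast h5
    · have h5 : 0 ≤ Real.log Y := Real.log_nonneg (by linarith)
      have h6 : b * (L - Real.log Y) ≤ b * L := mul_le_mul_of_nonneg_left (by linarith) hb0.le
      have h7 : 0 ≤ 1 / 4 + 2 * ε := by linarith
      have h8 := mul_le_mul_of_nonneg_left h6 h7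
      calc _ ≤ (1 / 4 + 2 * ε) * (b * L) := h8
        _ = (1 / 4 + 2 * ε) * b * L := by ring
    · have h5 : 0 ≤ Real.log Y := Real.log_nonneg (by linarith)
      have h6 : b * (L - Real.log Y) ≤ b * L := mul_le_mul_of_nonneg_left (by linarith) hb0.le
      have h7 : 0 ≤ ε * (b * L) := by positivity
      calc b * (L - Real.log Y) ≤ b * L + 8 * (ε * (b * L)) := by linarith
        _ = 4 * ((1 / 4 + 2 * ε) * b * L) := by ring
  have h1 : ((EX ((1 / 4 + 2 * ε) * b) X Z).card : ℝ) ≤ NN b (1 / 4 + 2 * ε) X Y := by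
    unfold NN
    exact_mod_cast card_le_card hsub
  refine (h1.trans hN).trans ?_
  rw [neg_neg]
  have hZp : (0 : ℝ) < Z ^ (Real.log q / Real.log 2) := by positivity
  have hE : (0 : ℝ) ≤ 8 / q * Z ^ (Real.log q / Real.log 2) * (X + 1) * (J + 1) ^ 3 := by positivity
  calc (m : ℝ) * (8 / q * Z ^ (Real.log q / Real.log 2) * (X + 1) * (J + 1) ^ 3)
      ≤ (J + 1) * (8 / q * Z ^ (Real.log q / Real.log 2) * (X + 1) * (J + 1) ^ 3) :=
        mul_le_mul_of_nonneg_right hmJ hE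
    _ = 8 / q * Z ^ (Real.log q / Real.log 2) * (X + 1) * (J + 1) ^ 4 := by ring
    _ ≤ 8 / q * Z ^ (Real.log q / Real.log 2) * (X + 1) * ((b + 2) * (L + 1)) ^ 4 := by
        apply mul_le_mul_of_nonneg_left _ (by positivity)
        exact pow_le_pow_left₀ (by positivity) hJ2 4
    _ = 8 / q * (b + 2) ^ 4 * (L + 1) ^ 4 * (X + 1) * Z ^ (Real.log q / Real.log 2) := by ring

end Pool.Agent.helper49.Pow
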