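import Pool.Agent.helper49.Pow.Core

/-!
# Power saving for the descent, final form
-/

namespace Pool.Agent.helper49.Pow

open Finset

open Classical in
/-- The integers `n ≤ X` without a typical descent below `Z`. -/
noncomputable def EZ (K : ℝ) (X : ℕ) (Z : ℝ) : Finset ℕ :=
  (range (X + 1)).filter (fun n => ¬ ∃ j : ℕ, ((T^[j] n : ℕ) : ℝ) < Z ∧ (∀ i < j, 2 ≤ T^[i] n) ∧
    (tr j n : ℝ) ≤ K * Real.log n ∧ (j : ℝ) ≤ 4 * (K * Real.log n))

theorem final {K : ℝ} (hK : 1 / Real.log (16 / 9) < K) :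
    ∃ (c : ℝ) (A X0 : ℕ), 0 < c ∧ ∀ (X : ℕ) (Z : ℝ), X0 ≤ X → Real.log X ^ A ≤ Z → Z ≤ X →
      ((EZ K X Z).card : ℝ) ≤ X * Z ^ (-c) := by
  classical
  obtain ⟨K1, c0, C, B, hK1, hK1K, hc0, hC, hB, H⟩ := core hK
  have hK0 : 0 < K := hK1.trans hK1K
  set c1 : ℝ := (K - K1) / (2 * K) with hc1
  have hc10 : 0 < c1 := div_pos (by linarith) (by linarith)
  have hc1h : c1 < 1 / 2 := by
    rw [hc1, div_lt_div_iff₀ (by linarith) (by norm_num)]
    linarith
  have hKc : K * (1 - c1) = (K + K1) / 2 := by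
    rw [hc1]; field_simp; ring
  set c : ℝ := min c0 c1 / 2 with hc
  have hcpos : 0 < c := by
    have := lt_min hc0 hc10
    linarith
  have hcc0 : c ≤ c0 / 2 := by
    have := min_le_left c0 c1
    linarith
  have hcc1 : c ≤ c1 / 2 := by
    have := min_le_right c0 c1
    linarith
  obtain ⟨A1, hA1⟩ := exists_nat_ge (10 / c0)
  set A : ℕ := A1 + 3 with hA
  set L0 : ℝ := 3 + 9 * B ^ 2 + 486 * C + (3 : ℝ) ^ (2 / c1) + 2 * K1 / (K - K1) with hL0
  have hKK : 0 < K - K1 := by linarith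
  refine ⟨c, A, ⌈Real.exp L0⌉₊, hcpos, ?_⟩
  intro X Z hX hZ hZX
  have hXe : Real.exp L0 ≤ X := (Nat.le_ceil _).trans (by exact_mod_cast hX)
  have hX0 : (0 : ℝ) < X := lt_of_lt_of_le (Real.exp_pos _) hXe
  set L : ℝ := Real.log X with hL
  have hLL0 : L0 ≤ L := (Real.le_log_iff_exp_le hX0).2 hXe
  have p1 : 0 < 9 * B ^ 2 := by positivity
  have p2 : 0 < 486 * C := by positivity
  have p3 : 0 < (3 : ℝ) ^ (2 / c1) := by positivity
  have p4 : 0 < 2 * K1 / (K - K1) := by positivity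
  have hL3 : 3 ≤ L := by linarith
  have hL1 : 1 ≤ L := by linarith
  have hLB : 9 * B ^ 2 ≤ L := by linarith
  have hLC : 486 * C ≤ L := by linarith
  have hLc : (3 : ℝ) ^ (2 / c1) ≤ L := by linarith
  have hLK : 2 * K1 / (K - K1) ≤ L := by linarith
  have hX9 : (9 : ℝ) ≤ X := by
    have h1 : Real.log 9 ≤ 3 := by
      have h2 : Real.log 9 = 2 * Real.log 3 := by
        rw [show (9 : ℝ) = 3 ^ 2 by norm_num, Real.log_pow]; norm_num
      have h3 : Real.log 3 ≤ 3 / 2 := by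
        have h4 : Real.log 3 ≤ Real.log 4 := Real.log_le_log (by norm_num) (by norm_num)
        have h5 : Real.log 4 = 2 * Real.log 2 := by
          rw [show (4 : ℝ) = 2 ^ 2 by norm_num, Real.log_pow]; norm_num
        have := Real.log_two_lt_d9
        linarith
      linarith
    exact (Real.log_le_log_iff (by norm_num) hX0).1 (by linarith)
  have hLZ : L ≤ Z := by
    refine le_trans ?_ hZ
    calc L = L ^ 1 := (pow_one L).symm
      _ ≤ L ^ A := pow_le_pow_right₀ hL1 (by omega)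
  have hZ1 : 1 ≤ Z := by linarith
  have hZ0 : 0 < Z := by linarith
  have hlogX1 : Real.log (X + 1) ≤ L + 1 / 9 := by
    have h1 : Real.log (X + 1) = L + Real.log (1 + 1 / X) := by
      rw [hL, ← Real.log_mul (by positivity) (by positivity)]
      congr 1
      field_simp
    have h2 : Real.log (1 + 1 / (X : ℝ)) ≤ 1 / X := by
      have := Real.log_le_sub_one_of_pos (show 0 < 1 + 1 / (X : ℝ) by positivity)
      linarith
    have h3 : 1 / (X : ℝ) ≤ 1 / 9 := one_div_le_one_div_of_le (by norm_num) hX9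
    linarith
  have hlogX1' : Real.log (X + 1) + 1 ≤ 3 * L := by linarith
  have hlogX0 : 0 ≤ Real.log (X + 1) + 1 := by
    have : 0 ≤ Real.log ((X : ℝ) + 1) := Real.log_nonneg (by linarith)
    linarith
  have hcond : (B * (Real.log (X + 1) + 1)) ^ 2 ≤ Z := by
    refine le_trans ?_ hZ
    calc (B * (Real.log (X + 1) + 1)) ^ 2 ≤ (B * (3 * L)) ^ 2 :=
          pow_le_pow_left₀ (by positivity) (mul_le_mul_of_nonneg_left hlogX1' hB.le) 2
      _ = 9 * B ^ 2 * L ^ 2 := by ring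
      _ ≤ L * L ^ 2 := mul_le_mul_of_nonneg_right hLB (by positivity)
      _ = L ^ 3 := by ring
      _ ≤ L ^ A := pow_le_pow_right₀ hL1 (by omega)
  have hH := H X Z hcond (by linarith)
  -- the covering
  have hsub : EZ K X Z ⊆ EX K1 X Z ∪ range (⌊(X : ℝ) * Z ^ (-c1)⌋₊ + 1) := by
    intro n hn
    unfold EZ at hn
    rw [mem_filter] at hn
    rw [mem_union, mem_range]
    by_cases h1 : n < ⌊(X : ℝ) * Z ^ (-c1)⌋₊ + 1
    · exact Or.inr h1
    · left
      unfold EX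
      rw [mem_filter]
      refine ⟨hn.1, fun h => hn.2 ?_⟩
      obtain ⟨j, h2, h3, h4, h4'⟩ := h
      suffices hs : K1 * Real.log (X + 1) ≤ K * Real.log n from
        ⟨j, h2, h3, h4.trans hs, h4'.trans (by linarith)⟩
      have h5 : (X : ℝ) * Z ^ (-c1) ≤ n := by
        have h6 := Nat.lt_floor_add_one ((X : ℝ) * Z ^ (-c1))
        have h7 : ((⌊(X : ℝ) * Z ^ (-c1)⌋₊ + 1 : ℕ) : ℝ) ≤ n := by exact_mod_cast not_lt.1 h1
        push_cast at h7
        linarith
      have h8 : (1 - c1) * L ≤ Real.log n := by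
        have h9 : Real.log ((X : ℝ) * Z ^ (-c1)) ≤ Real.log n :=
          Real.log_le_log (by positivity) h5
        rw [Real.log_mul hX0.ne' (by positivity), Real.log_rpow hZ0] at h9
        have h10 : Real.log Z ≤ L := Real.log_le_log hZ0 hZX
        have h11 : c1 * Real.log Z ≤ c1 * L := mul_le_mul_of_nonneg_left h10 hc10.le
        linarith
      have h12 : K1 * Real.log (X + 1) ≤ K1 * (L + 1 / 9) := mul_le_mul_of_nonneg_left hlogX1 hK1.le
      have h13 : 2 * K1 ≤ L * (K - K1) := (div_le_iff₀ hKK).1 hLK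
      have h14 : K * ((1 - c1) * L) ≤ K * Real.log n := mul_le_mul_of_nonneg_left h8 hK0.le
      have h15 : K * ((1 - c1) * L) = (K + K1) / 2 * L := by rw [← hKc]; ring
      nlinarith
  have hcard : ((EZ K X Z).card : ℝ) ≤ (EX K1 X Z).card + (X * Z ^ (-c1) + 1) := by
    have h1 := (card_le_card hsub).trans (card_union_le _ _)
    rw [card_range] at h1
    have h2 : ((EZ K X Z).card : ℝ) ≤ (EX K1 X Z).card + (⌊(X : ℝ) * Z ^ (-c1)⌋₊ + 1) := by
      exact_mod_cast h1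
    have h3 := Nat.floor_le (show 0 ≤ (X : ℝ) * Z ^ (-c1) by positivity)
    linarith
  -- the three estimates
  have hZc : 0 < Z ^ (-c) := by positivity
  have e1 : C * (Real.log (X + 1) + 1) ^ 4 * (X + 1) * Z ^ (-c0) ≤ X * Z ^ (-c) / 3 := by
    have a1 : Z ^ (-c0) ≤ Z ^ (-c) * (L ^ 5)⁻¹ := by
      have b1 : Z ^ (-c0) ≤ Z ^ (-c) * Z ^ (-(c0 / 2)) := by
        rw [← Real.rpow_add hZ0]
        exact Real.rpow_le_rpow_of_exponent_le hZ1 (by linarith)
      have b2 : Z ^ (-(c0 / 2)) ≤ (L ^ 5)⁻¹ := by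
        rw [Real.rpow_neg hZ0.le]
        apply inv_anti₀ (by positivity)
        calc L ^ 5 = L ^ ((5 : ℕ) : ℝ) := (Real.rpow_natCast L 5).symm
          _ ≤ L ^ ((A : ℝ) * (c0 / 2)) := by
              apply Real.rpow_le_rpow_of_exponent_le hL1
              have b3 : (10 / c0 : ℝ) ≤ A := by
                rw [hA]
                push_cast
                linarith
              have b4 := (div_le_iff₀ hc0).1 b3
              push_cast
              linarith
          _ = (L ^ A) ^ (c0 / 2) := by rw [Real.rpow_mul (by linarith), Real.rpow_natCast]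
          _ ≤ Z ^ (c0 / 2) := Real.rpow_le_rpow (by positivity) hZ (by linarith)
      calc Z ^ (-c0) ≤ Z ^ (-c) * Z ^ (-(c0 / 2)) := b1
        _ ≤ Z ^ (-c) * (L ^ 5)⁻¹ := mul_le_mul_of_nonneg_left b2 hZc.le
    have a2 : C * (Real.log (X + 1) + 1) ^ 4 * (X + 1) ≤ C * (3 * L) ^ 4 * (2 * X) := by
      have b1 : (Real.log (X + 1) + 1) ^ 4 ≤ (3 * L) ^ 4 := pow_le_pow_left₀ hlogX0 hlogX1' 4
      have b2 : C * (Real.log (X + 1) + 1) ^ 4 ≤ C * (3 * L) ^ 4 := mul_le_mul_of_nonneg_left b1 hC.le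
      exact mul_le_mul b2 (by linarith) (by positivity) (by positivity)
    have a3 : 0 ≤ Z ^ (-c0) := by positivity
    calc C * (Real.log (X + 1) + 1) ^ 4 * (X + 1) * Z ^ (-c0)
        ≤ C * (3 * L) ^ 4 * (2 * X) * (Z ^ (-c) * (L ^ 5)⁻¹) :=
          mul_le_mul a2 a1 a3 (by positivity)
      _ = X * Z ^ (-c) * (162 * C / L) := by field_simp; ring
      _ ≤ X * Z ^ (-c) * (1 / 3) := by
          apply mul_le_mul_of_nonneg_left _ (by positivity)
          rw [div_le_div_iff₀ (by linarith) (by norm_num)]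
          linarith
      _ = X * Z ^ (-c) / 3 := by ring
  have e2 : (X : ℝ) * Z ^ (-c1) ≤ X * Z ^ (-c) / 3 := by
    have b1 : Z ^ (-c1) ≤ Z ^ (-c) * Z ^ (-(c1 / 2)) := by
      rw [← Real.rpow_add hZ0]
      exact Real.rpow_le_rpow_of_exponent_le hZ1 (by linarith)
    have b2 : Z ^ (-(c1 / 2)) ≤ 1 / 3 := by
      rw [Real.rpow_neg hZ0.le, one_div]
      apply inv_anti₀ (by norm_num)
      calc (3 : ℝ) = (3 ^ (2 / c1)) ^ (c1 / 2) := by
            rw [← Real.rpow_mul (by norm_num)]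
            rw [show 2 / c1 * (c1 / 2) = 1 by field_simp, Real.rpow_one]
        _ ≤ Z ^ (c1 / 2) := Real.rpow_le_rpow (by positivity) (hLc.trans hLZ) (by linarith)
    calc (X : ℝ) * Z ^ (-c1) ≤ X * (Z ^ (-c) * (1 / 3)) := by
          apply mul_le_mul_of_nonneg_left _ hX0.le
          exact b1.trans (mul_le_mul_of_nonneg_left b2 hZc.le)
      _ = X * Z ^ (-c) / 3 := by ring
  have e3 : (1 : ℝ) ≤ X * Z ^ (-c) / 3 := by
    have b1 : (X : ℝ) ^ (-(1 / 2) : ℝ) ≤ Z ^ (-c) := by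
      calc (X : ℝ) ^ (-(1 / 2) : ℝ) ≤ X ^ (-c) :=
            Real.rpow_le_rpow_of_exponent_le (by linarith) (by linarith)
        _ ≤ Z ^ (-c) := Real.rpow_le_rpow_of_nonpos hZ0 hZX (by linarith)
    have b2 : (X : ℝ) * X ^ (-(1 / 2) : ℝ) = X ^ (1 / 2 : ℝ) := by
      nth_rewrite 1 [← Real.rpow_one (X : ℝ)]
      rw [← Real.rpow_add hX0]
      norm_num
    have b3 : (3 : ℝ) ≤ X ^ (1 / 2 : ℝ) := by
      calc (3 : ℝ) = 9 ^ (1 / 2 : ℝ) := by
            rw [show (9 : ℝ) = 3 ^ (2 : ℝ) by norm_num, ← Real.rpow_mul (by norm_num)]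
            norm_num
        _ ≤ X ^ (1 / 2 : ℝ) := Real.rpow_le_rpow (by norm_num) hX9 (by norm_num)
    have b4 : (X : ℝ) * X ^ (-(1 / 2) : ℝ) ≤ X * Z ^ (-c) := mul_le_mul_of_nonneg_left b1 hX0.le
    rw [le_div_iff₀ (by norm_num)]
    linarith
  linarith

end Pool.Agent.helper49.Pow
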