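import Pool.Agent.helper49.Pow.Chain

/-!
# All scales
-/

namespace Pool.Agent.helper49.Pow

open Finset

/-- The typical decrease of the logarithm per step. -/
noncomputable def lam (ε : ℝ) : ℝ := Real.log 2 - (1 / 2 + ε) * Real.log 3

theorem log_rho (ε : ℝ) : Real.log (rho ε) = - lam ε := by
  unfold rho lam
  rw [Real.log_div (by positivity) (by norm_num), Real.log_rpow (by norm_num)]
  ring

theorem rho_lt_one {ε : ℝ} (h : 0 < lam ε) : rho ε < 1 := by
  have h1 := log_rho ε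
  have h2 : Real.log (rho ε) < 0 := by linarith
  exact (Real.log_neg_iff (rho_pos ε)).1 h2

theorem lam_lt {ε : ℝ} (hε : 0 < ε) : lam ε < Real.log 2 := by
  unfold lam
  have : 0 < Real.log 3 := Real.log_pos (by norm_num)
  nlinarith

theorem rho_sq {ε : ℝ} (hε : 0 < ε) : 1 / 2 ≤ rho ε ^ 2 := by
  have h1 : (3 : ℝ) ^ (1 / 2 : ℝ) ≤ (3 : ℝ) ^ (1 / 2 + ε) :=
    Real.rpow_le_rpow_of_exponent_le (by norm_num) (by linarith)
  have h2 : ((3 : ℝ) ^ (1 / 2 : ℝ)) ^ 2 = 3 := by
    rw [← Real.rpow_natCast, ← Real.rpow_mul (by norm_num)]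
    norm_num
  have h3 : (0 : ℝ) ≤ (3 : ℝ) ^ (1 / 2 : ℝ) := by positivity
  have h4 : ((3 : ℝ) ^ (1 / 2 : ℝ)) ^ 2 ≤ ((3 : ℝ) ^ (1 / 2 + ε)) ^ 2 := pow_le_pow_left₀ h3 h1 2
  unfold rho
  rw [div_pow]
  rw [h2] at h4
  rw [div_le_div_iff₀ (by norm_num) (by norm_num)]
  linarith

theorem exists_Kmin {ε b : ℝ} (hε : 0 < ε) (hl : 0 < lam ε) (hb : 1 < b * lam ε) :
    ∃ Kmin : ℕ, ∀ K : ℕ, Kmin ≤ K → rho ε ^ K ≤ 1 / 4 ∧ 1 ≤ ε * K ∧
      (K : ℝ) ≤ b * (K * lam ε - Real.log 2) := by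
  obtain ⟨N1, h1⟩ := exists_pow_lt_of_lt_one (show (0 : ℝ) < 1 / 4 by norm_num) (rho_lt_one hl)
  obtain ⟨N2, h2⟩ := exists_nat_ge (1 / ε)
  obtain ⟨N3, h3⟩ := exists_nat_ge (b * Real.log 2 / (b * lam ε - 1))
  refine ⟨max N1 (max N2 N3), fun K hK => ⟨?_, ?_, ?_⟩⟩
  · refine le_trans ?_ h1.le
    exact pow_le_pow_of_le_one (rho_pos ε).le (rho_lt_one hl).le ((le_max_left _ _).trans hK)
  · have e1 : (N2 : ℝ) ≤ K := by
      exact_mod_cast ((le_max_left _ _).trans (le_max_right _ _)).trans hK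
    have e2 := (div_le_iff₀ hε).1 h2
    nlinarith
  · have e1 : (N3 : ℝ) ≤ K := by
      exact_mod_cast ((le_max_right _ _).trans (le_max_right _ _)).trans hK
    have e2 := (div_le_iff₀ (by linarith)).1 (h3.trans e1)
    nlinarith

theorem iterate {ε b q : ℝ} (hε : 0 < ε) (hq : 0 < q) (hq1 : q < 1)
    (hbad : ∀ k : ℕ, ((Bad ε k).card : ℝ) ≤ 4 * (2 * q) ^ k) (hl : 0 < lam ε)
    (hb : 1 < b * lam ε) {Kmin : ℕ} (hmin : ∀ K : ℕ, Kmin ≤ K → rho ε ^ K ≤ 1 / 4 ∧ 1 ≤ ε * K ∧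
      (K : ℝ) ≤ b * (K * lam ε - Real.log 2)) {X J : ℕ} {Z : ℝ}
    (hJ : b * Real.log (X + 1) ≤ J) (hZJ : ((J : ℝ) + 1) ^ 2 ≤ Z) (hZX : Z ≤ X + 1)
    (hZK : (2 : ℝ) ^ (Kmin + 1) ≤ Z) (m : ℕ) :
    ∃ Y : ℝ, 2 ≤ Y ∧ Y ≤ X + 1 ∧ (Y < Z ∨ (Z ≤ Y ∧ Y ≤ (X + 1) / 2 ^ m)) ∧
      (NN b (1 / 4 + 2 * ε) X Y : ℝ) ≤
        m * (8 / q * Z ^ (Real.log q / Real.log 2) * (X + 1) * (J + 1) ^ 3) := by
  classical
  have hl2 : 0 < Real.log 2 := Real.log_pos (by norm_num)
  have hb0 : 0 < b := by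
    by_contra h
    push Not at h
    nlinarith
  have hb2 : 1 ≤ b * Real.log 2 := by
    have := lam_lt hε
    nlinarith
  have hZ2 : 2 ≤ Z := by
    refine le_trans ?_ hZK
    rw [pow_succ]
    have : (1 : ℝ) ≤ 2 ^ Kmin := one_le_pow₀ (by norm_num)
    linarith
  have hZ0 : 0 < Z := by linarith
  have hX1 : (0 : ℝ) < X + 1 := by positivity
  induction m with
  | zero =>
    refine ⟨X + 1, by linarith, le_rfl, Or.inr ⟨hZX, by rw [pow_zero, div_one]⟩, ?_⟩
    have : NN b (1 / 4 + 2 * ε) X ((X : ℝ) + 1) = 0 := by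
      unfold NN
      rw [card_eq_zero, filter_eq_empty_iff]
      intro n hn h
      apply h
      refine ⟨0, ?_, fun i hi => absurd hi (Nat.not_lt_zero i), ?_, ?_⟩
      · have : n < X + 1 := mem_range.1 hn
        show (n : ℝ) < X + 1
        exact_mod_cast this
      · simp
      · simp [tr]
    rw [this]
    simp
  | succ m ih =>
    obtain ⟨Y, hY2, hYX, hY, hN⟩ := ih
    set E : ℝ := 8 / q * Z ^ (Real.log q / Real.log 2) * (X + 1) * (J + 1) ^ 3 with hE
    have hE0 : 0 ≤ E := by positivity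
    rcases hY with hY | ⟨hZY, hYm⟩
    · refine ⟨Y, hY2, hYX, Or.inl hY, hN.trans ?_⟩
      push_cast
      nlinarith
    · -- the scale
      have hY0 : 0 < Y := by linarith
      set K : ℕ := Nat.log 2 ⌊Y⌋₊ with hK
      have hfl : ⌊Y⌋₊ ≠ 0 := by
        have : 2 ≤ ⌊Y⌋₊ := Nat.le_floor (by exact_mod_cast hY2)
        omega
      have hY1 : (2 : ℝ) ^ K ≤ Y := by
        have h1 : 2 ^ K ≤ ⌊Y⌋₊ := Nat.pow_log_le_self 2 hfl
        have h2 : ((2 ^ K : ℕ) : ℝ) ≤ (⌊Y⌋₊ : ℝ) := by exact_mod_cast h1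
        push_cast at h2
        exact h2.trans (Nat.floor_le hY0.le)
      have hY3 : Y < 2 ^ (K + 1) := by
        have h1 : ⌊Y⌋₊ < 2 ^ (K + 1) := Nat.lt_pow_succ_log_self (by norm_num) _
        have h2 : ((⌊Y⌋₊ + 1 : ℕ) : ℝ) ≤ ((2 ^ (K + 1) : ℕ) : ℝ) := by exact_mod_cast h1
        push_cast at h2
        exact lt_of_lt_of_le (Nat.lt_floor_add_one Y) h2
      have hKmin : Kmin ≤ K := by
        by_contra h
        have h1 : K + 1 ≤ Kmin := by omega
        have h2 : (2 : ℝ) ^ (K + 1) ≤ 2 ^ (Kmin + 1) :=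
          pow_le_pow_right₀ (by norm_num) (by omega)
        linarith
      obtain ⟨hr4, hεK, hKb⟩ := hmin K hKmin
      have hr0 := rho_pos ε
      have hrK : 0 < rho ε ^ K := by positivity
      -- lower bound for the new scale
      have hsq : Y ≤ (Y * rho ε ^ K) ^ 2 := by
        have h1 : (1 / 2 : ℝ) ^ K ≤ (rho ε ^ 2) ^ K := pow_le_pow_left₀ (by norm_num) (rho_sq hε) K
        have h2 : (1 : ℝ) ≤ Y * (1 / 2) ^ K := by
          rw [div_pow, one_pow, mul_one_div, le_div_iff₀ (by positivity)]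
          linarith
        have h3 : (Y * rho ε ^ K) ^ 2 = Y * (Y * (rho ε ^ 2) ^ K) := by
          rw [mul_pow, ← pow_mul, ← pow_mul, mul_comm K 2]; ring
        rw [h3]
        have h4 : Y * (1 / 2) ^ K ≤ Y * (rho ε ^ 2) ^ K := mul_le_mul_of_nonneg_left h1 hY0.le
        nlinarith
      have hJ0 : (0 : ℝ) ≤ J := Nat.cast_nonneg J
      have hYJ : (J : ℝ) + 1 ≤ Y * rho ε ^ K := by
        have h1 : ((J : ℝ) + 1) ^ 2 ≤ (Y * rho ε ^ K) ^ 2 := by linarith
        exact le_of_sq_le_sq h1 (by positivity)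
      have hlogX : 0 ≤ Real.log (X + 1) := Real.log_nonneg (by
        have : (0 : ℝ) ≤ X := Nat.cast_nonneg X
        linarith)
      have hKJ : (K : ℝ) ≤ J := by
        have h1 : (K : ℝ) * Real.log 2 ≤ Real.log (X + 1) := by
          rw [← Real.log_pow]
          exact Real.log_le_log (by positivity) (hY1.trans hYX)
        have h2 : (K : ℝ) ≤ K * (b * Real.log 2) :=
          le_mul_of_one_le_right (Nat.cast_nonneg K) hb2
        have h3 : (K : ℝ) * (b * Real.log 2) = b * (K * Real.log 2) := by ring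
        have h4 : b * (K * Real.log 2) ≤ b * Real.log (X + 1) := mul_le_mul_of_nonneg_left h1 hb0.le
        linarith
      have hlogY : 0 ≤ Real.log Y := Real.log_nonneg (by linarith)
      have hY'e : 2 * Y * rho ε ^ K = 2 * (Y * rho ε ^ K) := by ring
      have g1 : 1 ≤ 2 * Y * rho ε ^ K := by rw [hY'e]; linarith
      have g2 : (K : ℝ) ≤ 2 * Y * rho ε ^ K := by rw [hY'e]; linarith
      have g3' : Y * rho ε ^ K ≤ Y * (1 / 4) := mul_le_mul_of_nonneg_left hr4 hY0.le
      have g3 : 2 * Y * rho ε ^ K ≤ Y := by rw [hY'e]; linarith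
      have g4 : (K : ℝ) ≤ b * (Real.log Y - Real.log (2 * Y * rho ε ^ K)) := by
        rw [Real.log_mul (by positivity) (by positivity), Real.log_mul (by norm_num) hY0.ne',
          Real.log_pow, log_rho]
        refine hKb.trans (le_of_eq ?_)
        ring
      have g5 : b * (Real.log (X + 1) - Real.log Y) ≤ J := by
        have : 0 ≤ b * Real.log Y := mul_nonneg hb0.le hlogY
        rw [mul_sub]
        linarith
      have g6 : 2 * (J : ℝ) ≤ Y := by
        have e1 : 2 * (J : ℝ) ≤ ((J : ℝ) + 1) ^ 2 := by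
          have : 0 ≤ (J : ℝ) ^ 2 := by positivity
          linarith [show ((J : ℝ) + 1) ^ 2 = (J : ℝ) ^ 2 + 2 * J + 1 by ring]
        linarith
      have hstep := step (b := b) hε hq hbad (X := X) (J := J) hY1 hY3 hYX hεK g1 g2 g3 g4 g5 g6 hY2
      refine ⟨2 * Y * rho ε ^ K, by rw [hY'e]; linarith, by linarith, ?_, ?_⟩
      · by_cases h : 2 * Y * rho ε ^ K < Z
        · exact Or.inl h
        · right
          refine ⟨not_lt.1 h, ?_⟩
          rw [pow_succ, ← div_div]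
          have h1 : 2 * Y * rho ε ^ K ≤ Y / 2 := by rw [hY'e]; linarith
          linarith
      · refine hstep.trans ?_
        have hqK : q ^ K ≤ 1 / q * Z ^ (Real.log q / Real.log 2) := by
          have hlq : Real.log q < 0 := Real.log_neg hq hq1
          have h1 : Real.log Z ≤ (K + 1) * Real.log 2 := by
            have h2 : Real.log Z ≤ Real.log (2 ^ (K + 1)) :=
              Real.log_le_log hZ0 (hZY.trans hY3.le)
            rw [Real.log_pow] at h2
            push_cast at h2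
            exact h2
          rw [← Real.log_le_log_iff (by positivity) (by positivity), Real.log_mul (by positivity) (by positivity),
            Real.log_pow, Real.log_rpow hZ0, one_div, Real.log_inv]
          have h3 : Real.log q / Real.log 2 * Real.log Z = Real.log q * (Real.log Z / Real.log 2) := by
            ring
          rw [h3]
          have h4 : Real.log Z / Real.log 2 ≤ K + 1 := (div_le_iff₀ hl2).2 h1
          have h5 := mul_le_mul_of_nonpos_left h4 hlq.le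
          linarith
        have h5 : 8 * q ^ K * (X + 1) * (J + 1) ^ 3 ≤ E := by
          rw [hE]
          have h6 : 8 * q ^ K ≤ 8 / q * Z ^ (Real.log q / Real.log 2) := by
            calc 8 * q ^ K ≤ 8 * (1 / q * Z ^ (Real.log q / Real.log 2)) := by linarith
              _ = _ := by ring
          apply mul_le_mul_of_nonneg_right _ (by positivity)
          exact mul_le_mul_of_nonneg_right h6 hX1.le
        push_cast
        linarith

end Pool.Agent.helper49.Pow
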