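import Pool.Agent.helper49.Pow.Word

/-!
# A pointwise bound for the distribution of the passage points
-/

namespace Pool.Agent.helper49.Pow

open Finset

/-- The additive constant of `T^k`. -/
def rr : ℕ → ℕ → ℕ
  | 0, _ => 0
  | k + 1, n => 3 ^ (od k (T n)) * (n % 2) + 2 * rr k (T n)

theorem two_T (n : ℕ) : 2 * T n = 3 ^ (n % 2) * n + n % 2 := by
  rcases Nat.mod_two_eq_zero_or_one n with h | h
  · rw [two_T_even h, h, pow_zero]; omega
  · rw [two_T_odd h, h, pow_one]

theorem affine (k n : ℕ) : 2 ^ k * T^[k] n = 3 ^ (od k n) * n + rr k n := by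
  induction k generalizing n with
  | zero => simp [od, rr]
  | succ k ih =>
    rw [Function.iterate_succ_apply]
    show 2 ^ (k + 1) * T^[k] (T n) =
      3 ^ (n % 2 + od k (T n)) * n + (3 ^ (od k (T n)) * (n % 2) + 2 * rr k (T n))
    have h1 := ih (T n)
    have h2 := two_T n
    calc 2 ^ (k + 1) * T^[k] (T n) = 2 * (2 ^ k * T^[k] (T n)) := by ring
      _ = 3 ^ od k (T n) * (2 * T n) + 2 * rr k (T n) := by rw [h1]; ring
      _ = _ := by rw [h2, pow_add]; ring

theorem rr_le (k : ℕ) : ∀ (n z : ℕ), 1 ≤ z → T^[k] n = z → (∀ i, 1 ≤ i → i ≤ k → z ≤ T^[i] n) →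
    2 * rr k n ≤ k * 2 ^ k := by
  induction k with
  | zero => intro n z _ _ _; simp [rr]
  | succ k ih =>
    intro n z hz h1 h2
    rw [Function.iterate_succ_apply] at h1
    have h3 := ih (T n) z hz h1 (fun i hi hik => by
      have := h2 (i + 1) (by omega) (by omega)
      rwa [Function.iterate_succ_apply] at this)
    have h4 := affine k (T n)
    rw [h1] at h4
    have h5 : z ≤ T n := h2 1 le_rfl (by omega)
    have h6 : 3 ^ od k (T n) * z ≤ 2 ^ k * z := by
      calc 3 ^ od k (T n) * z ≤ 3 ^ od k (T n) * T n := Nat.mul_le_mul_left _ h5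
        _ ≤ 2 ^ k * z := by omega
    have h7 : 3 ^ od k (T n) ≤ 2 ^ k := Nat.le_of_mul_le_mul_right h6 (by omega)
    have h8 : 3 ^ od k (T n) * (n % 2) ≤ 2 ^ k := by
      calc 3 ^ od k (T n) * (n % 2) ≤ 3 ^ od k (T n) * 1 := Nat.mul_le_mul_left _ (by omega)
        _ ≤ 2 ^ k := by omega
    show 2 * (3 ^ (od k (T n)) * (n % 2) + 2 * rr k (T n)) ≤ (k + 1) * 2 ^ (k + 1)
    have e : (k + 1) * 2 ^ (k + 1) = 2 * (k * 2 ^ k) + 2 * 2 ^ k := by ring
    omega

/-- `z` is reached after `j` steps, and the earlier iterates are at least `z`. -/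
def FP (z j n : ℕ) : Prop := T^[j] n = z ∧ ∀ i < j, z ≤ T^[i] n

theorem card_le_of_diff (S : Finset ℕ) {D : ℝ} (hD : 0 ≤ D)
    (h : ∀ n ∈ S, ∀ m ∈ S, n ≤ m → (m : ℝ) - n ≤ D) : (S.card : ℝ) ≤ 1 + D := by
  rcases S.eq_empty_or_nonempty with rfl | hne
  · simp; linarith
  · set a := S.min' hne with ha
    have hsub : S ⊆ Icc a (a + ⌊D⌋₊) := by
      intro m hm
      have h1 : a ≤ m := S.min'_le m hm
      have h2 := h a (S.min'_mem hne) m hm h1
      rw [mem_Icc]
      refine ⟨h1, ?_⟩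
      have h3 : ((m - a : ℕ) : ℝ) ≤ D := by
        rw [Nat.cast_sub h1]; exact h2
      have h4 := Nat.le_floor h3
      omega
    have h1 := card_le_card hsub
    rw [Nat.card_Icc] at h1
    have h2 : S.card ≤ 1 + ⌊D⌋₊ := by omega
    have h3 : (S.card : ℝ) ≤ 1 + (⌊D⌋₊ : ℝ) := by exact_mod_cast h2
    linarith [Nat.floor_le hD]

open Classical in
theorem card_one (X z j a : ℕ) (hz : 1 ≤ z) (hj : j ≤ z) :
    (((range (X + 1)).filter (fun n => FP z j n ∧ od j n = a)).card : ℝ) ≤ 1 + (j * X : ℝ) / z := by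
  refine card_le_of_diff _ (by positivity) ?_
  intro n hn m hm hnm
  rw [mem_filter, mem_range] at hn hm
  obtain ⟨hn1, ⟨hn2, hn3⟩, hn4⟩ := hn
  obtain ⟨hm1, ⟨hm2, hm3⟩, hm4⟩ := hm
  have an := affine j n
  have am := affine j m
  rw [hn2, hn4] at an
  rw [hm2, hm4] at am
  have rn := rr_le j n z hz hn2 (fun i hi hij => by
    rcases Nat.lt_or_ge i j with h | h
    · exact hn3 i h
    · have : i = j := by omega
      rw [this, hn2])
  have an' : (2 : ℝ) ^ j * z = 3 ^ a * n + rr j n := by exact_mod_cast an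
  have am' : (2 : ℝ) ^ j * z = 3 ^ a * m + rr j m := by exact_mod_cast am
  have rn' : 2 * (rr j n : ℝ) ≤ j * 2 ^ j := by exact_mod_cast rn
  have hz' : (0 : ℝ) < z := by exact_mod_cast hz
  have hj' : (j : ℝ) ≤ z := by exact_mod_cast hj
  have hX : (n : ℝ) ≤ X := by exact_mod_cast (by omega : n ≤ X)
  have h2j : (0 : ℝ) < 2 ^ j := by positivity
  have h3a : (0 : ℝ) < 3 ^ a := by positivity
  have h1 : (2 : ℝ) ^ j * z ≤ 2 * 3 ^ a * X := by
    have e1 : (3 : ℝ) ^ a * n ≤ 3 ^ a * X := mul_le_mul_of_nonneg_left hX h3a.le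
    have e2 : (j : ℝ) * 2 ^ j ≤ z * 2 ^ j := mul_le_mul_of_nonneg_right hj' h2j.le
    nlinarith
  have h2 : 2 * 3 ^ a * ((m : ℝ) - n) ≤ j * 2 ^ j := by
    have : (0 : ℝ) ≤ rr j m := Nat.cast_nonneg _
    nlinarith
  rw [le_div_iff₀ hz']
  have h3 : 2 * 3 ^ a * (((m : ℝ) - n) * z) ≤ 2 * 3 ^ a * (j * X) := by
    calc 2 * 3 ^ a * (((m : ℝ) - n) * z) = (2 * 3 ^ a * ((m : ℝ) - n)) * z := by ring
      _ ≤ (j * 2 ^ j) * z := mul_le_mul_of_nonneg_right h2 hz'.le
      _ = j * (2 ^ j * z) := by ring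
      _ ≤ j * (2 * 3 ^ a * X) := mul_le_mul_of_nonneg_left h1 (Nat.cast_nonneg _)
      _ = 2 * 3 ^ a * (j * X) := by ring
  exact le_of_mul_le_mul_left h3 (by positivity)

theorem od_le (k n : ℕ) : od k n ≤ k := by
  induction k generalizing n with
  | zero => exact le_rfl
  | succ k ih =>
    have := ih (T n)
    show n % 2 + od k (T n) ≤ k + 1
    omega

open Classical in
/-- **The pointwise bound.** -/
theorem card_fp (X z J : ℕ) (hz : 1 ≤ z) (hJ : J ≤ z) :
    (((range (X + 1)).filter (fun n => ∃ j ≤ J, FP z j n)).card : ℝ) ≤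
      (J + 1) ^ 2 * (1 + (J * X : ℝ) / z) := by
  have hsub : (range (X + 1)).filter (fun n => ∃ j ≤ J, FP z j n) ⊆
      (range (J + 1) ×ˢ range (J + 1)).biUnion
        (fun p => (range (X + 1)).filter (fun n => FP z p.1 n ∧ od p.1 n = p.2)) := by
    intro n hn
    rw [mem_filter] at hn
    obtain ⟨h1, j, hj, h2⟩ := hn
    rw [mem_biUnion]
    refine ⟨(j, od j n), ?_, ?_⟩
    · rw [mem_product, mem_range, mem_range]
      have := od_le j n
      exact ⟨by omega, by show od j n < J + 1; omega⟩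
    · rw [mem_filter]
      exact ⟨h1, h2, rfl⟩
  have h1 : (((range (X + 1)).filter (fun n => ∃ j ≤ J, FP z j n)).card : ℝ) ≤
      ∑ p ∈ range (J + 1) ×ˢ range (J + 1),
        (((range (X + 1)).filter (fun n => FP z p.1 n ∧ od p.1 n = p.2)).card : ℝ) := by
    exact_mod_cast (card_le_card hsub).trans card_biUnion_le
  refine h1.trans ?_
  have h2 : ∀ p ∈ range (J + 1) ×ˢ range (J + 1),
      (((range (X + 1)).filter (fun n => FP z p.1 n ∧ od p.1 n = p.2)).card : ℝ) ≤
        1 + (J * X : ℝ) / z := by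
    intro p hp
    rw [mem_product, mem_range, mem_range] at hp
    refine (card_one X z p.1 p.2 hz (by omega)).trans ?_
    have e1 : (p.1 : ℝ) ≤ J := by exact_mod_cast (by omega : p.1 ≤ J)
    have hz' : (0 : ℝ) < z := by exact_mod_cast hz
    have : (p.1 * X : ℝ) / z ≤ (J * X : ℝ) / z := by
      apply div_le_div_of_nonneg_right _ hz'.le
      exact mul_le_mul_of_nonneg_right e1 (Nat.cast_nonneg _)
    linarith
  refine (sum_le_card_nsmul _ _ _ h2).trans (le_of_eq ?_)
  rw [card_product, card_range, nsmul_eq_mul]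
  push_cast
  ring

end Pool.Agent.helper49.Pow
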