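import Pool.Agent.helper49.Pow.Cher
import Pool.Agent.helper49.Pow.Pass

/-!
# One block of steps from a typical integer
-/

namespace Pool.Agent.helper49.Pow

open Finset

theorem iter_up (y : ℝ) (hy : 0 < y) (k : ℕ) : ∀ n : ℕ, (∀ i < k, y ≤ (T^[i] n : ℕ)) →
    (2 : ℝ) ^ k * (T^[k] n : ℕ) ≤ 3 ^ (od k n) * (1 + 1 / (3 * y)) ^ k * n := by
  induction k with
  | zero => intro n _; simp [od]
  | succ k ih =>
    intro n hi
    have h1 := ih (T n) (by
      intro i hik
      have := hi (i + 1) (by omega)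
      rwa [Function.iterate_succ_apply] at this)
    rw [Function.iterate_succ_apply]
    have hn0 : y ≤ (n : ℝ) := by simpa using hi 0 (by omega)
    have hT' : (2 : ℝ) * (T n : ℕ) ≤ 3 ^ (n % 2) * (1 + 1 / (3 * y)) * n := by
      have h2 : (2 : ℝ) * (T n : ℕ) = 3 ^ (n % 2) * n + (n % 2 : ℕ) := by exact_mod_cast two_T n
      rcases Nat.mod_two_eq_zero_or_one n with h | h
      · rw [h2, h]
        have : 0 ≤ 1 / (3 * y) * n := by positivity
        push_cast
        nlinarith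
      · rw [h2, h, pow_one]
        have h5 : 1 ≤ (n : ℝ) / y := by rwa [le_div_iff₀ hy, one_mul]
        have h6 : 3 * (1 + 1 / (3 * y)) * (n : ℝ) = 3 * n + n / y := by
          field_simp
        rw [h6]
        push_cast
        linarith
    have hA : (0 : ℝ) ≤ 3 ^ (od k (T n)) * (1 + 1 / (3 * y)) ^ k := by positivity
    show (2 : ℝ) ^ (k + 1) * (T^[k] (T n) : ℕ) ≤ 3 ^ (n % 2 + od k (T n)) * (1 + 1 / (3 * y)) ^ (k + 1) * n
    calc (2 : ℝ) ^ (k + 1) * (T^[k] (T n) : ℕ) = 2 * (2 ^ k * (T^[k] (T n) : ℕ)) := by ring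
      _ ≤ 2 * (3 ^ (od k (T n)) * (1 + 1 / (3 * y)) ^ k * (T n : ℕ)) := by linarith
      _ = 3 ^ (od k (T n)) * (1 + 1 / (3 * y)) ^ k * (2 * (T n : ℕ)) := by ring
      _ ≤ 3 ^ (od k (T n)) * (1 + 1 / (3 * y)) ^ k *
          (3 ^ (n % 2) * (1 + 1 / (3 * y)) * n) := mul_le_mul_of_nonneg_left hT' hA
      _ = _ := by rw [pow_add, pow_succ (1 + 1 / (3 * y)) k]; ring

/-- The typical factor per step. -/
noncomputable def rho (ε : ℝ) : ℝ := (3 : ℝ) ^ (1 / 2 + ε) / 2

theorem rho_pos (ε : ℝ) : 0 < rho ε := by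
  unfold rho
  positivity

theorem stage {ε Y Y' : ℝ} {K m : ℕ} (hm : (m : ℝ) < Y) (ho : (od K m : ℝ) ≤ (1 / 2 + ε) * K)
    (h1 : 1 ≤ Y') (hK : (K : ℝ) ≤ Y') (hY : 2 * Y * rho ε ^ K ≤ Y') :
    ∃ i ≤ K, (T^[i] m : ℕ) < Y' ∧ ∀ l < i, Y' ≤ (T^[l] m : ℕ) := by
  classical
  by_cases hex : ∃ i, i ≤ K ∧ ((T^[i] m : ℕ) : ℝ) < Y'
  · refine ⟨Nat.find hex, (Nat.find_spec hex).1, (Nat.find_spec hex).2, fun l hl => ?_⟩
    have h2 := Nat.find_min hex hl
    by_contra h3
    exact h2 ⟨by have := (Nat.find_spec hex).1; omega, not_le.1 h3⟩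
  · exfalso
    push Not at hex
    have hY'0 : 0 < Y' := by linarith
    have h2 := iter_up Y' hY'0 K m (fun i hi => hex i hi.le)
    have h3 : (1 + 1 / (3 * Y')) ^ K ≤ 2 := by
      have e1 : 1 + 1 / (3 * Y') ≤ Real.exp (1 / (3 * Y')) := by
        have := Real.add_one_le_exp (1 / (3 * Y'))
        linarith
      calc (1 + 1 / (3 * Y')) ^ K ≤ Real.exp (1 / (3 * Y')) ^ K :=
            pow_le_pow_left₀ (by positivity) e1 K
        _ = Real.exp (K * (1 / (3 * Y'))) := by rw [← Real.exp_nat_mul]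
        _ ≤ Real.exp (1 / 3) := by
            apply Real.exp_le_exp.2
            rw [mul_one_div, div_le_div_iff₀ (by positivity) (by norm_num)]
            nlinarith
        _ ≤ 2 := by
            have h4 : Real.exp (1 / 3) ≤ Real.exp (Real.log 2) := by
              apply Real.exp_le_exp.2
              have := Real.log_two_gt_d9
              linarith
            rwa [Real.exp_log (by norm_num)] at h4
    have h4 : (3 : ℝ) ^ (od K m) ≤ (2 * rho ε) ^ K := by
      have e1 : 2 * rho ε = (3 : ℝ) ^ (1 / 2 + ε) := by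
        unfold rho
        ring
      rw [e1, ← Real.rpow_natCast, ← Real.rpow_natCast ((3 : ℝ) ^ (1 / 2 + ε)), ← Real.rpow_mul (by norm_num)]
      exact Real.rpow_le_rpow_of_exponent_le (by norm_num) ho
    have hr := rho_pos ε
    have h5 : (2 : ℝ) ^ K * (T^[K] m : ℕ) < (2 * rho ε) ^ K * 2 * Y := by
      refine lt_of_le_of_lt h2 ?_
      have hp1 : (0 : ℝ) < 3 ^ (od K m) * (1 + 1 / (3 * Y')) ^ K := by positivity
      calc 3 ^ (od K m) * (1 + 1 / (3 * Y')) ^ K * (m : ℝ) < 3 ^ (od K m) * (1 + 1 / (3 * Y')) ^ K * Y :=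
            mul_lt_mul_of_pos_left hm hp1
        _ ≤ (2 * rho ε) ^ K * 2 * Y := by
            have hY0 : 0 < Y := lt_of_le_of_lt (Nat.cast_nonneg m) hm
            apply mul_le_mul_of_nonneg_right _ hY0.le
            exact mul_le_mul h4 h3 (by positivity) (by positivity)
    have h6 : (2 * rho ε) ^ K * 2 * Y = 2 ^ K * (2 * Y * rho ε ^ K) := by
      rw [mul_pow]; ring
    rw [h6] at h5
    have h7 : ((T^[K] m : ℕ) : ℝ) < 2 * Y * rho ε ^ K := lt_of_mul_lt_mul_left h5 (by positivity)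
    have h8 := hex K le_rfl
    linarith

theorem od_add (j i n : ℕ) : od (j + i) n = od j n + od i (T^[j] n) := by
  induction j generalizing n with
  | zero => simp [od]
  | succ j ih =>
    rw [Nat.succ_add, Function.iterate_succ_apply]
    show n % 2 + od (j + i) (T n) = (n % 2 + od j (T n)) + od i (T^[j] (T n))
    rw [ih]
    omega

theorem tr_add (j i n : ℕ) : tr (j + i) n = tr j n + tr i (T^[j] n) := by
  induction j generalizing n with
  | zero => simp [tr]
  | succ j ih =>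
    rw [Nat.succ_add, Function.iterate_succ_apply]
    show (if n % 2 = 1 ∧ T n % 2 = 0 then 1 else 0) + tr (j + i) (T n) =
      ((if n % 2 = 1 ∧ T n % 2 = 0 then 1 else 0) + tr j (T n)) + tr i (T^[j] (T n))
    rw [ih]
    omega

theorem tr_mono {i k n : ℕ} (h : i ≤ k) : tr i n ≤ tr k n := by
  obtain ⟨l, rfl⟩ := Nat.exists_eq_add_of_le h
  rw [tr_add]
  omega

end Pool.Agent.helper49.Pow
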